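import Pool.Graph.R_seed8.Y335.FL.Ahl

set_option autoImplicit false
set_option linter.unusedSectionVars false

/-! # A Moore bound for irregular graphs of girth twelve which uses the integrality of the degrees

The mean growth of the number of nonbacktracking walks in a graph with `n` vertices, `m` edges and
minimum degree at least two is at least `8 ^ ((m - n) / m)`: this is the geometric mean of `d - 1`
over the darts, and `(d - 1) ^ d ≥ 8 ^ (d - 2)` for all integers `d ≥ 2`.  The number of walks is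
handled by the lemmas of `Y335/FL/Ahl.lean`. -/

namespace Pool.Agent.H90.BW

open Finset Pool.Agent.Y335.FL Pool.Agent.Y335.FL.Ahl

theorem deg_pow (d : ℕ) : 8 ^ d ≤ (d + 1) ^ (d + 2) := by
  rcases Nat.lt_or_ge d 7 with h | h
  · interval_cases d <;> norm_num
  · calc 8 ^ d ≤ (d + 1) ^ d := Nat.pow_le_pow_left (by omega) d
      _ ≤ (d + 1) ^ (d + 2) := Nat.pow_le_pow_right (by omega) (by omega)

theorem deg_log (d : ℕ) (hd : 2 ≤ d) :
    ((d : ℝ) - 2) * Real.log 8 ≤ d * Real.log ((d : ℝ) - 1) := by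
  obtain ⟨e, rfl⟩ : ∃ e, d = e + 2 := ⟨d - 2, by omega⟩
  have h1 : ((8 : ℝ)) ^ e ≤ ((e : ℝ) + 1) ^ (e + 2) := by exact_mod_cast deg_pow e
  have h2 := Real.log_le_log (by positivity) h1
  rw [Real.log_pow, Real.log_pow] at h2
  push_cast at h2 ⊢
  have e1 : (e : ℝ) + 2 - 2 = e := by ring
  have e2 : (e : ℝ) + 2 - 1 = e + 1 := by ring
  rw [e1, e2]
  exact h2

theorem ahl2 {V : Type} [Fintype V] [DecidableEq V] [Nonempty V] (G : SimpleGraph V)
    [DecidableRel G.Adj] (hd : ∀ v, 2 ≤ G.degree v) (hg : Girth G.Adj 12) (y : ℝ) (hy : 0 < y)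
    (hc : y ^ G.edgeFinset.card * 8 ^ Fintype.card V ≤ 8 ^ G.edgeFinset.card) :
    2 * ∑ i ∈ range 6, y ^ i ≤ Fintype.card V := by
  have hlog : (G.edgeFinset.card : ℝ) * Real.log y + (Fintype.card V : ℝ) * Real.log 8 ≤
      (G.edgeFinset.card : ℝ) * Real.log 8 := by
    have h1 := Real.log_le_log (by positivity) hc
    rw [Real.log_mul (by positivity) (by positivity), Real.log_pow, Real.log_pow,
      Real.log_pow] at h1
    exact h1
  set n : ℝ := (Fintype.card V : ℝ) with hn
  set m : ℝ := (G.edgeFinset.card : ℝ) with hm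
  have hn0 : 0 < n := by
    rw [hn]
    exact_mod_cast Fintype.card_pos
  have hdeg : ∑ v, (G.degree v : ℝ) = 2 * m := by
    have h1 := G.sum_degrees_eq_twice_card_edges
    rw [hm]
    exact_mod_cast h1
  have h2n : 2 * n ≤ 2 * m := by
    rw [← hdeg]
    have h1 : ∑ v : V, (2 : ℝ) ≤ ∑ v, (G.degree v : ℝ) :=
      sum_le_sum fun v _ => by exact_mod_cast hd v
    rw [sum_const, nsmul_eq_mul, card_univ] at h1
    linarith
  have hm0 : 0 < 2 * m := by linarith
  -- the mean of the logarithms of the degrees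
  have hq : 2 * m * Real.log y ≤
      ∑ x, ∑ y ∈ G.neighborFinset x, Real.log ((G.degree y : ℝ) - 1) := by
    rw [swap (fun x y => Real.log ((G.degree y : ℝ) - 1))]
    have h1 : ∀ y, ∑ _x ∈ G.neighborFinset y, Real.log ((G.degree y : ℝ) - 1) =
        G.degree y * Real.log ((G.degree y : ℝ) - 1) := fun y => by
      rw [sum_const, nsmul_eq_mul, G.card_neighborFinset_eq_degree]
    rw [sum_congr rfl fun y _ => h1 y]
    have h2 : ∑ y, ((G.degree y : ℝ) - 2) * Real.log 8 ≤
        ∑ y, (G.degree y : ℝ) * Real.log ((G.degree y : ℝ) - 1) :=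
      sum_le_sum fun y _ => deg_log _ (hd y)
    refine le_trans ?_ h2
    rw [← sum_mul, sum_sub_distrib, hdeg, sum_const, nsmul_eq_mul, card_univ, ← hn]
    linarith
  -- the sums of the numbers of walks
  have hT : ∀ i ≤ 5, 2 * m * y ^ i ≤
      ∑ x, ∑ y ∈ G.neighborFinset x, (T G i x y : ℝ) := by
    intro i hi
    have hcard : (((univ : Finset V).sigma fun x => G.neighborFinset x).card : ℝ) = 2 * m := by
      rw [card_sigma]
      push_cast
      rw [← hdeg]
      refine sum_congr rfl fun x _ => ?_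
      rw [G.card_neighborFinset_eq_degree]
    have hne : ((univ : Finset V).sigma fun x => G.neighborFinset x).Nonempty := by
      rw [← card_pos]
      have h2 : (0 : ℝ) < ((univ : Finset V).sigma fun x => G.neighborFinset x).card := by
        rw [hcard]; exact hm0
      exact_mod_cast h2
    have h1 := log_mean _ hne (fun p : Σ _ : V, V => (T G i p.1 p.2 : ℝ)) (by
      intro p hp
      rw [mem_sigma] at hp
      have := T_pos hg hd i hi p.1 p.2 ((G.mem_neighborFinset _ _).1 hp.2)
      exact_mod_cast this)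
    rw [hcard, sum_sigma, sum_sigma] at h1
    simp only at h1
    have h2 := logs hg hd i hi
    set X := ∑ x, ∑ y ∈ G.neighborFinset x, (T G i x y : ℝ) with hX
    have hX0 : 0 < X := by
      have h3 : 0 < ∑ p ∈ (univ : Finset V).sigma fun x => G.neighborFinset x,
          (T G i p.1 p.2 : ℝ) := sum_pos (by
        intro p hp
        rw [mem_sigma] at hp
        have := T_pos hg hd i hi p.1 p.2 ((G.mem_neighborFinset _ _).1 hp.2)
        exact_mod_cast this) hne
      rw [sum_sigma] at h3
      exact h3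
    have h3 : (i : ℝ) * Real.log y ≤ Real.log (X / (2 * m)) := by
      have h4 : (i : ℝ) * (2 * m * Real.log y) ≤
          i * ∑ x, ∑ y ∈ G.neighborFinset x, Real.log ((G.degree y : ℝ) - 1) :=
        mul_le_mul_of_nonneg_left hq (Nat.cast_nonneg i)
      have h5 : 2 * m * ((i : ℝ) * Real.log y) ≤ 2 * m * Real.log (X / (2 * m)) := by
        linarith
      exact le_of_mul_le_mul_left h5 hm0
    rw [← Real.log_pow, Real.log_le_log_iff (pow_pos hy i) (div_pos hX0 hm0),
      le_div_iff₀ hm0] at h3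
    linarith
  -- the sum over the darts
  have hsum : ∑ x, ∑ y ∈ G.neighborFinset x, ∑ i ∈ range 6, ((T G i x y : ℝ) + T G i y x) ≤
      2 * m * n := by
    have h1 : ∑ x, ∑ y ∈ G.neighborFinset x, ∑ i ∈ range 6, ((T G i x y : ℝ) + T G i y x) ≤
        ∑ x, ∑ _y ∈ G.neighborFinset x, n := by
      refine sum_le_sum fun x _ => sum_le_sum fun y hy => ?_
      have h2 := count hg ((G.mem_neighborFinset x y).1 hy)
      rw [hn]
      exact_mod_cast h2
    refine h1.trans (le_of_eq ?_)
    rw [← hdeg, sum_mul]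
    refine sum_congr rfl fun x _ => ?_
    rw [sum_const, nsmul_eq_mul, G.card_neighborFinset_eq_degree]
  have hsum2 : ∑ x, ∑ y ∈ G.neighborFinset x, ∑ i ∈ range 6, ((T G i x y : ℝ) + T G i y x) =
      ∑ i ∈ range 6, 2 * ∑ x, ∑ y ∈ G.neighborFinset x, (T G i x y : ℝ) := by
    have h1 : ∀ x : V, ∑ y ∈ G.neighborFinset x, ∑ i ∈ range 6, ((T G i x y : ℝ) + T G i y x) =
        ∑ i ∈ range 6, ∑ y ∈ G.neighborFinset x, ((T G i x y : ℝ) + T G i y x) :=
      fun x => sum_comm
    rw [sum_congr rfl fun x _ => h1 x, sum_comm]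
    refine sum_congr rfl fun i _ => ?_
    simp only [sum_add_distrib]
    rw [swap (fun x y => (T G i y x : ℝ))]
    ring
  have hfin : 2 * m * (2 * ∑ i ∈ range 6, y ^ i) ≤ 2 * m * n := by
    refine le_trans ?_ hsum
    rw [hsum2, ← mul_sum, mul_sum (range 6) _ (2 : ℝ), mul_sum, mul_sum]
    refine sum_le_sum fun i hi => ?_
    rw [mem_range] at hi
    have h1 := hT i (by omega)
    linarith
  exact le_of_mul_le_mul_left hfin hm0

end Pool.Agent.H90.BW
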