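import Pool.Agent.H90.BW.Ahl2

set_option autoImplicit false
set_option linter.unusedSectionVars false

/-! # Numerical consequences of the Moore bound -/

namespace Pool.Agent.H90.BW

open Finset Pool.Agent.Y335.FL

theorem key {V : Type} [Fintype V] [DecidableEq V] [Nonempty V] (G : SimpleGraph V)
    [DecidableRel G.Adj] (hd : ∀ v, 2 ≤ G.degree v) (hg : Girth G.Adj 12) (k r : ℕ) (hr0 : 0 < r)
    (hr : r ≤ 8000) (hk : Fintype.card V + k ≤ G.edgeFinset.card)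
    (h1 : r ^ (Fintype.card V + k) ≤ 8 ^ k * 1000 ^ (Fintype.card V + k))
    (h2 : Fintype.card V * 1000 ^ 5 < 2 * (1000 ^ 5 + r * 1000 ^ 4 + r ^ 2 * 1000 ^ 3 +
      r ^ 3 * 1000 ^ 2 + r ^ 4 * 1000 + r ^ 5)) : False := by
  obtain ⟨j, hj⟩ := Nat.exists_eq_add_of_le hk
  obtain ⟨y, hy⟩ : ∃ y : ℝ, y = (r : ℝ) / 1000 := ⟨_, rfl⟩
  have hr' : (r : ℝ) = 1000 * y := by rw [hy]; ring
  have hy0 : 0 < y := by
    rw [hy]
    have : (0 : ℝ) < r := by exact_mod_cast hr0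
    positivity
  have hy8 : y ≤ 8 := by
    rw [hy, div_le_iff₀ (by norm_num)]
    have : (r : ℝ) ≤ 8000 := by exact_mod_cast hr
    linarith
  have h3 : y ^ (Fintype.card V + k) ≤ 8 ^ k := by
    have h4 : (r : ℝ) ^ (Fintype.card V + k) ≤ 8 ^ k * 1000 ^ (Fintype.card V + k) := by
      exact_mod_cast h1
    rw [hr', mul_pow, mul_comm] at h4
    exact le_of_mul_le_mul_right h4 (by positivity)
  have h5 := ahl2 G hd hg y hy0 (by
    rw [hj, pow_add _ (Fintype.card V + k) j, pow_add (8 : ℝ) (Fintype.card V + k) j,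
      pow_add (8 : ℝ) (Fintype.card V) k]
    have h6 : y ^ j ≤ 8 ^ j := pow_le_pow_left₀ hy0.le hy8 j
    have h7 : y ^ (Fintype.card V + k) * y ^ j ≤ 8 ^ k * 8 ^ j :=
      mul_le_mul h3 h6 (by positivity) (by positivity)
    calc y ^ (Fintype.card V + k) * y ^ j * 8 ^ Fintype.card V
        ≤ 8 ^ k * 8 ^ j * 8 ^ Fintype.card V := mul_le_mul_of_nonneg_right h7 (by positivity)
      _ = 8 ^ Fintype.card V * 8 ^ k * 8 ^ j := by ring)
  have h8 : (Fintype.card V : ℝ) * 1000 ^ 5 < 2 * (1000 ^ 5 + r * 1000 ^ 4 + r ^ 2 * 1000 ^ 3 +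
      r ^ 3 * 1000 ^ 2 + r ^ 4 * 1000 + r ^ 5) := by exact_mod_cast h2
  rw [hr'] at h8
  simp only [sum_range_succ, sum_range_zero] at h5
  nlinarith

def tb1 : List ℕ := [2000, 2000, 2000, 2000, 2000, 2000, 2000, 2000, 2000, 2000, 2000, 1915, 1843, 1781, 1728, 1681, 1640, 1604, 1571, 1542, 1515, 1491, 1469, 1449, 1431, 1414, 1398, 1383, 1370, 1357, 1414, 1401, 1452, 1438, 1485, 1472, 1515, 1502, 1542, 1528, 1565, 1552, 1587, 1574, 1606, 1593, 1624, 1611, 1640, 1628, 1655, 1643, 1669, 1656, 1681, 1669, 1693, 1681, 1704, 1692, 1714, 1703, 1723, 1712, 1732, 1722, 1741, 1730, 1748, 1738, 1756, 1746, 1763, 1753]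

def tb2 : List ℕ := [2000, 2000, 2000, 2000, 2000, 2000, 2000, 2000, 2000, 2000, 2000, 2000, 2000, 2000, 2000, 2000, 2000, 2000, 2000, 1951, 1906, 1866, 1828, 1794, 1763, 1734, 1706, 1681, 1658, 1636, 1615, 1596, 1578, 1561, 1545, 1530, 1515, 1502, 1489, 1476, 1515, 1503, 1539, 1527, 1561, 1549, 1581, 1569, 1599, 1587, 1615, 1604, 1631, 1619, 1645, 1633, 1658, 1647, 1670, 1659, 1681, 1671, 1692, 1681]

/-- the table is good for `n` -/
def Ok (t : List ℕ) (n k : ℕ) : Prop :=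
  0 < t.getD n 0 ∧ t.getD n 0 ≤ 8000 ∧ (t.getD n 0) ^ (n + k) ≤ 8 ^ k * 1000 ^ (n + k) ∧
    n * 1000 ^ 5 < 2 * (1000 ^ 5 + t.getD n 0 * 1000 ^ 4 + (t.getD n 0) ^ 2 * 1000 ^ 3 +
      (t.getD n 0) ^ 3 * 1000 ^ 2 + (t.getD n 0) ^ 4 * 1000 + (t.getD n 0) ^ 5)

instance (t : List ℕ) (n k : ℕ) : Decidable (Ok t n k) := by
  unfold Ok
  infer_instance

theorem ok1 : ∀ n < 74, Ok tb1 n (max 5 ((n - 19 + 1) / 2)) := by decide +kernel

theorem ok2 : ∀ n < 64, Ok tb2 n (max 9 ((n - 21 + 1) / 2)) := by decide +kernel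

/-- at most 73 vertices and `m ≥ n + 5`: `2 m + 19 < 3 n` -/
theorem ex19 {V : Type} [Fintype V] [DecidableEq V] (G : SimpleGraph V)
    [DecidableRel G.Adj] (hd : ∀ v, 2 ≤ G.degree v) (hg : Girth G.Adj 12)
    (hn : Fintype.card V ≤ 73) (hm : Fintype.card V + 5 ≤ G.edgeFinset.card) :
    2 * G.edgeFinset.card + 19 < 3 * Fintype.card V := by
  by_contra hcon
  rw [not_lt] at hcon
  have hV : Nonempty V := by
    have h0 : 0 < G.edgeFinset.card := by omega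
    obtain ⟨e, he⟩ := Finset.card_pos.1 h0
    exact ⟨e.out.1⟩
  obtain ⟨h1, h2, h3, h4⟩ := ok1 (Fintype.card V) (by omega)
  exact key G hd hg _ _ h1 h2 (by omega) h3 h4

/-- at most 63 vertices and `m ≥ n + 9`: `2 m + 21 < 3 n` -/
theorem ex21 {V : Type} [Fintype V] [DecidableEq V] (G : SimpleGraph V)
    [DecidableRel G.Adj] (hd : ∀ v, 2 ≤ G.degree v) (hg : Girth G.Adj 12)
    (hn : Fintype.card V ≤ 63) (hm : Fintype.card V + 9 ≤ G.edgeFinset.card) :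
    2 * G.edgeFinset.card + 21 < 3 * Fintype.card V := by
  by_contra hcon
  rw [not_lt] at hcon
  have hV : Nonempty V := by
    have h0 : 0 < G.edgeFinset.card := by omega
    obtain ⟨e, he⟩ := Finset.card_pos.1 h0
    exact ⟨e.out.1⟩
  obtain ⟨h1, h2, h3, h4⟩ := ok2 (Fintype.card V) (by omega)
  exact key G hd hg _ _ h1 h2 (by omega) h3 h4

end Pool.Agent.H90.BW
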