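import Pool.Agent.H90.BW.Gb

set_option autoImplicit false
set_option linter.unusedSectionVars false

/-! # Numerical consequences of the piecewise linear Moore bound -/

namespace Pool.Agent.H90.BW

open Finset Pool.Agent.Y335.FL

/-- the bound with natural exponents -/
theorem gb5 {V : Type} [Fintype V] [DecidableEq V] (G : SimpleGraph V)
    [DecidableRel G.Adj] (hd : ∀ v, 2 ≤ G.degree v) (hg : Girth G.Adj 12)
    (c1 c2 c3 c4 c5 : ℕ) (n m : ℤ) (hn : (Fintype.card V : ℤ) = n)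
    (hm : (G.edgeFinset.card : ℤ) = m) :
    2 * m + 2 ^ c1 * (6 * (m - n) - 2 * m * (c1 - 1)) + 2 ^ c2 * (12 * (m - n) - 2 * m * (c2 - 1)) +
      2 ^ c3 * (18 * (m - n) - 2 * m * (c3 - 1)) + 2 ^ c4 * (24 * (m - n) - 2 * m * (c4 - 1)) +
      2 ^ c5 * (30 * (m - n) - 2 * m * (c5 - 1)) ≤ m * n := by
  have h := gb (G := G) hg hd (fun i => if i = 0 then 0 else if i = 1 then c1 else
    if i = 2 then c2 else if i = 3 then c3 else if i = 4 then c4 else c5)
  have hn' : (Fintype.card V : ℝ) = (n : ℝ) := by rw [← hn]; push_cast; rfl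
  have hm' : (G.edgeFinset.card : ℝ) = (m : ℝ) := by rw [← hm]; push_cast; rfl
  rw [hn', hm'] at h
  simp only [sum_range_succ, sum_range_zero] at h
  norm_num at h
  have h2 : (2 * (m : ℝ) + 2 ^ c1 * (6 * (m - n) - 2 * m * (c1 - 1)) +
      2 ^ c2 * (12 * (m - n) - 2 * m * (c2 - 1)) +
      2 ^ c3 * (18 * (m - n) - 2 * m * (c3 - 1)) + 2 ^ c4 * (24 * (m - n) - 2 * m * (c4 - 1)) +
      2 ^ c5 * (30 * (m - n) - 2 * m * (c5 - 1))) ≤ m * n := by
    linarith
  exact_mod_cast h2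

/-- at most 65 vertices and `m ≥ n + 10`: `2 m + 22 < 3 n` -/
theorem ex22 {V : Type} [Fintype V] [DecidableEq V] (G : SimpleGraph V)
    [DecidableRel G.Adj] (hd : ∀ v, 2 ≤ G.degree v) (hg : Girth G.Adj 12)
    (hn : Fintype.card V ≤ 65) (hm : Fintype.card V + 10 ≤ G.edgeFinset.card) :
    2 * G.edgeFinset.card + 22 < 3 * Fintype.card V := by
  by_contra hcon
  rw [not_lt] at hcon
  obtain ⟨n, hn'⟩ : ∃ n, n = Fintype.card V := ⟨_, rfl⟩
  obtain ⟨m, hm'⟩ : ∃ m, m = G.edgeFinset.card := ⟨_, rfl⟩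
  have h1 := gb5 G hd hg 0 1 1 2 3 n m (by rw [hn']) (by rw [hm'])
  have h2 := gb5 G hd hg 0 1 1 2 2 n m (by rw [hn']) (by rw [hm'])
  have h3 := gb5 G hd hg 0 1 2 2 3 n m (by rw [hn']) (by rw [hm'])
  rw [← hn', ← hm'] at hcon hm
  rw [← hn'] at hn
  clear hn' hm' hg hd
  norm_num at h1 h2 h3
  interval_cases n <;> push_cast at h1 h2 h3 <;> omega

end Pool.Agent.H90.BW
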