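import Pool.Agent.H90.BW.Ex2

set_option autoImplicit false
set_option linter.unusedSectionVars false

/-! # Further numerical consequences of the piecewise linear Moore bound -/

namespace Pool.Agent.H90.BW

open Finset Pool.Agent.Y335.FL

theorem ex20b {V : Type} [Fintype V] [DecidableEq V] (G : SimpleGraph V)
    [DecidableRel G.Adj] (hd : ∀ v, 2 ≤ G.degree v) (hg : Girth G.Adj 12)
    (hn : Fintype.card V ≤ 77) (hm : Fintype.card V + 6 ≤ G.edgeFinset.card)
    (hcon : 3 * Fintype.card V ≤ 2 * G.edgeFinset.card + 20) : False := by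
  obtain ⟨n, hn'⟩ : ∃ n, n = Fintype.card V := ⟨_, rfl⟩
  obtain ⟨m, hm'⟩ : ∃ m, m = G.edgeFinset.card := ⟨_, rfl⟩
  have h1 := gb5 G hd hg 0 1 2 2 3 n m (by rw [hn']) (by rw [hm'])
  have h2 := gb5 G hd hg 0 0 0 1 2 n m (by rw [hn']) (by rw [hm'])
  have h3 := gb5 G hd hg 0 1 2 3 4 n m (by rw [hn']) (by rw [hm'])
  rw [← hn', ← hm'] at hcon hm
  rw [← hn'] at hn
  clear hn' hm' hg hd
  norm_num at h1 h2 h3
  interval_cases n <;> push_cast at h1 h2 h3 <;> omega

theorem ex19b {V : Type} [Fintype V] [DecidableEq V] (G : SimpleGraph V)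
    [DecidableRel G.Adj] (hd : ∀ v, 2 ≤ G.degree v) (hg : Girth G.Adj 12)
    (hn : Fintype.card V ≤ 50) (hm : Fintype.card V + 5 ≤ G.edgeFinset.card)
    (hcon : 3 * Fintype.card V ≤ 2 * G.edgeFinset.card + 19) : False := by
  obtain ⟨n, hn'⟩ : ∃ n, n = Fintype.card V := ⟨_, rfl⟩
  obtain ⟨m, hm'⟩ : ∃ m, m = G.edgeFinset.card := ⟨_, rfl⟩
  have h1 := gb5 G hd hg 0 0 0 2 2 n m (by rw [hn']) (by rw [hm'])
  rw [← hn', ← hm'] at hcon hm
  rw [← hn'] at hn
  clear hn' hm' hg hd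
  norm_num at h1
  interval_cases n <;> push_cast at h1 <;> omega

end Pool.Agent.H90.BW
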