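import Pool.Graph.R_seed8.Y335.FL.Ahl

set_option autoImplicit false
set_option linter.unusedSectionVars false

/-! # A piecewise linear Moore bound for irregular graphs of girth twelve

For a dart `(x, y)` let `T i x y` be the number of nonbacktracking walks with `i` more steps.  For a
random such walk (the next step is uniform) let `k i x y` be the expected number of the vertices,
where a vertex of degree `d` is counted `3 - 6 / d` times.  Then `T i x y ≥ 2 ^ c (k i x y - c + 1)`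
for all integers `c`: the number of the vertices of degree three on a walk is an INTEGER `K`, and
`2 ^ K ≥ 2 ^ c (K - c + 1)`. -/

namespace Pool.Agent.H90.BW

open Finset Pool.Agent.Y335.FL Pool.Agent.Y335.FL.Ahl

variable {V : Type} [Fintype V] [DecidableEq V] {G : SimpleGraph V} [DecidableRel G.Adj]

/-- the weight of a vertex -/
noncomputable def kap (G : SimpleGraph V) [DecidableRel G.Adj] (y : V) : ℝ := 3 - 6 / G.degree y

/-- the expected weight of a walk -/
noncomputable def kk (G : SimpleGraph V) [DecidableRel G.Adj] : ℕ → V → V → ℝ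
  | 0, _, _ => 0
  | i + 1, x, y => kap G y +
      ((G.degree y : ℝ) - 1)⁻¹ * ∑ u ∈ (G.neighborFinset y).erase x, kk G i y u

/-- the uniform distribution on the darts is stationary -/
theorem stat (hd : ∀ v, 2 ≤ G.degree v) (f : V → V → ℝ) :
    ∑ x, ∑ y ∈ G.neighborFinset x, ((G.degree y : ℝ) - 1)⁻¹ *
      ∑ u ∈ (G.neighborFinset y).erase x, f y u = ∑ y, ∑ u ∈ G.neighborFinset y, f y u := by
  rw [swap (fun x y => ((G.degree y : ℝ) - 1)⁻¹ * ∑ u ∈ (G.neighborFinset y).erase x, f y u)]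
  refine sum_congr rfl fun y _ => ?_
  rw [← mul_sum]
  have hq0 : (0 : ℝ) < (G.degree y : ℝ) - 1 := by
    have h1 : ((2 : ℕ) : ℝ) ≤ G.degree y := by exact_mod_cast hd y
    push_cast at h1
    linarith
  have h3 : ∑ x ∈ G.neighborFinset y, ∑ u ∈ (G.neighborFinset y).erase x, f y u =
      ((G.degree y : ℝ) - 1) * ∑ u ∈ G.neighborFinset y, f y u := by
    have h4 : ∀ x ∈ G.neighborFinset y, ∑ u ∈ (G.neighborFinset y).erase x, f y u =
        ∑ u ∈ G.neighborFinset y, f y u - f y x := by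
      intro x hx
      rw [← sum_erase_add _ _ hx]
      ring
    rw [sum_congr rfl h4, sum_sub_distrib, sum_const, nsmul_eq_mul,
      G.card_neighborFinset_eq_degree]
    ring
  rw [h3, ← mul_assoc, inv_mul_cancel₀ hq0.ne', one_mul]

theorem sum_kk (hd : ∀ v, 2 ≤ G.degree v) (i : ℕ) :
    ∑ x, ∑ y ∈ G.neighborFinset x, kk G i x y =
      i * ∑ x, ∑ y ∈ G.neighborFinset x, kap G y := by
  induction i with
  | zero => simp [kk]
  | succ i ih =>
    have h1 : ∑ x, ∑ y ∈ G.neighborFinset x, kk G (i + 1) x y =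
        ∑ x, ∑ y ∈ G.neighborFinset x, kap G y + ∑ x, ∑ y ∈ G.neighborFinset x,
          ((G.degree y : ℝ) - 1)⁻¹ * ∑ u ∈ (G.neighborFinset y).erase x, kk G i y u := by
      rw [← sum_add_distrib]
      refine sum_congr rfl fun x _ => ?_
      rw [← sum_add_distrib]
      rfl
    rw [h1, stat hd, ih]
    push_cast
    ring

/-- the inequality for one vertex of degree `d`: `z = 2 ^ c t`, `P = 2 ^ c` -/
theorem local_ineq (d : ℕ) (hd : 2 ≤ d) {P z τ : ℝ} (hP : 0 < P) (h0 : ((d : ℝ) - 1) * z ≤ τ)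
    (h1 : ((d : ℝ) - 1) / 2 * (z + P) ≤ τ) (h2 : ((d : ℝ) - 1) / 4 * (z + 2 * P) ≤ τ)
    (h3 : ((d : ℝ) - 1) / 8 * (z + 3 * P) ≤ τ) (h4 : 0 ≤ τ) :
    z + (3 - 6 / (d : ℝ)) * P ≤ τ := by
  rcases Nat.lt_or_ge d 9 with h | h
  · interval_cases d <;> norm_num at h0 h1 h2 h3 ⊢ <;> linarith
  · have h5 : (9 : ℝ) ≤ d := by exact_mod_cast h
    have h6 : 0 ≤ 6 / (d : ℝ) * P := by positivity
    rcases le_total (z + 3 * P) 0 with h7 | h7
    · linarith
    · have h8 : z + 3 * P ≤ ((d : ℝ) - 1) / 8 * (z + 3 * P) := by nlinarith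
      linarith

theorem pt (hg : Girth G.Adj 12) (hd : ∀ v, 2 ≤ G.degree v) : ∀ i ≤ 5, ∀ x y, G.Adj x y →
    ∀ c : ℤ, (2 : ℝ) ^ c * (kk G i x y - c + 1) ≤ T G i x y := by
  intro i
  induction i with
  | zero =>
    intro _ x y h c
    rw [T_zero h]
    simp only [kk, zero_sub, Nat.cast_one]
    rcases le_total 0 c with hc | hc
    · obtain ⟨n, rfl⟩ := Int.eq_ofNat_of_zero_le hc
      rcases Nat.eq_zero_or_pos n with h0 | h0
      · subst h0; simp
      · have h1 : (1 : ℝ) ≤ n := by exact_mod_cast h0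
        have h2 : (0 : ℝ) ≤ (2 : ℝ) ^ ((n : ℕ) : ℤ) := by positivity
        have h3 : -(((n : ℕ) : ℤ) : ℝ) + 1 ≤ 0 := by push_cast; linarith
        nlinarith
    · obtain ⟨n, hn⟩ := Int.eq_ofNat_of_zero_le (neg_nonneg.2 hc)
      have hc' : c = -(n : ℤ) := by omega
      subst hc'
      rw [zpow_neg, zpow_natCast]
      push_cast
      have h1 : (n : ℝ) + 1 ≤ 2 ^ n := by
        have : n + 1 ≤ 2 ^ n := Nat.lt_two_pow_self
        exact_mod_cast this
      rw [inv_mul_le_iff₀ (by positivity)]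
      linarith
  | succ i ih =>
    intro hi x y h c
    obtain ⟨S, hS⟩ : ∃ S, S = (G.neighborFinset y).erase x := ⟨_, rfl⟩
    have hcard : (S.card : ℝ) = (G.degree y : ℝ) - 1 := by
      rw [hS, card_erase_of_mem ((G.mem_neighborFinset y x).2 h.symm),
        G.card_neighborFinset_eq_degree, Nat.cast_sub (by linarith [hd y])]
      norm_num
    have hd2 : (2 : ℝ) ≤ G.degree y := by exact_mod_cast hd y
    have hq0 : (0 : ℝ) < (G.degree y : ℝ) - 1 := by linarith
    obtain ⟨q, hq⟩ : ∃ q, q = (G.degree y : ℝ) - 1 := ⟨_, rfl⟩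
    obtain ⟨a, ha⟩ : ∃ a, a = q⁻¹ * ∑ u ∈ S, kk G i y u := ⟨_, rfl⟩
    have hA : ∑ u ∈ S, kk G i y u = q * a := by
      rw [ha, ← mul_assoc, mul_inv_cancel₀ (by rw [hq]; exact hq0.ne'), one_mul]
    have hk : kk G (i + 1) x y = kap G y + a := by rw [ha, hq, hS]; rfl
    have hT : (T G (i + 1) x y : ℝ) = ∑ u ∈ S, (T G i y u : ℝ) := by
      rw [T_succ hg (by omega) h, hS]
      push_cast
      rfl
    have hline : ∀ c' : ℤ, (2 : ℝ) ^ c' * (q * (a - c' + 1)) ≤ T G (i + 1) x y := by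
      intro c'
      rw [hT]
      have h1 : ∑ u ∈ S, (2 : ℝ) ^ c' * (kk G i y u - c' + 1) ≤ ∑ u ∈ S, (T G i y u : ℝ) := by
        refine sum_le_sum fun u hu => ih (by omega) y u ?_ c'
        rw [hS, mem_erase, G.mem_neighborFinset] at hu
        exact hu.2
      refine le_trans (le_of_eq ?_) h1
      rw [← mul_sum, sum_add_distrib, sum_sub_distrib, hA, sum_const, sum_const, nsmul_eq_mul,
        nsmul_eq_mul, hcard, ← hq]
      ring
    obtain ⟨P, hP⟩ : ∃ P, P = (2 : ℝ) ^ c := ⟨_, rfl⟩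
    have hP0 : 0 < P := by rw [hP]; positivity
    have e1 : (2 : ℝ) ^ (c - 1) = P / 2 := by rw [hP, zpow_sub₀ two_ne_zero, zpow_one]
    have e2 : (2 : ℝ) ^ (c - 2) = P / 4 := by
      rw [hP, zpow_sub₀ two_ne_zero]; norm_num
    have e3 : (2 : ℝ) ^ (c - 3) = P / 8 := by
      rw [hP, zpow_sub₀ two_ne_zero]; norm_num
    have l0 := hline c
    have l1 := hline (c - 1)
    have l2 := hline (c - 2)
    have l3 := hline (c - 3)
    rw [← hP] at l0 ⊢
    rw [e1] at l1
    rw [e2] at l2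
    rw [e3] at l3
    push_cast at l1 l2 l3
    have hfin := local_ineq (G.degree y) (hd y) (P := P) (z := P * (a - c + 1))
      (τ := (T G (i + 1) x y : ℝ)) hP0 (by rw [← hq]; linarith) (by rw [← hq]; linarith)
      (by rw [← hq]; linarith) (by rw [← hq]; linarith) (Nat.cast_nonneg _)
    rw [hk]
    unfold kap
    linarith

/-- the number of the walks -/
theorem walks (hg : Girth G.Adj 12) (hd : ∀ v, 2 ≤ G.degree v) {i : ℕ} (hi : i ≤ 5) (c : ℤ) :
    (2 : ℝ) ^ c * (6 * i * ((G.edgeFinset.card : ℝ) - Fintype.card V) -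
      2 * G.edgeFinset.card * (c - 1)) ≤ ∑ x, ∑ y ∈ G.neighborFinset x, (T G i x y : ℝ) := by
  have hdeg : ∑ v, (G.degree v : ℝ) = 2 * G.edgeFinset.card := by
    have h1 := G.sum_degrees_eq_twice_card_edges
    exact_mod_cast h1
  have h1 : ∑ x, ∑ y ∈ G.neighborFinset x, (2 : ℝ) ^ c * (kk G i x y - c + 1) ≤
      ∑ x, ∑ y ∈ G.neighborFinset x, (T G i x y : ℝ) :=
    sum_le_sum fun x _ => sum_le_sum fun y hy => pt hg hd i hi x y ((G.mem_neighborFinset x y).1 hy) c
  have h2 : ∑ x, ∑ y ∈ G.neighborFinset x, kap G y =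
      6 * ((G.edgeFinset.card : ℝ) - Fintype.card V) := by
    rw [swap (fun x y => kap G y)]
    have h3 : ∀ y, ∑ _x ∈ G.neighborFinset y, kap G y = 3 * (G.degree y : ℝ) - 6 := by
      intro y
      rw [sum_const, nsmul_eq_mul, G.card_neighborFinset_eq_degree]
      unfold kap
      have h4 : (G.degree y : ℝ) ≠ 0 := by
        have h5 : (2 : ℝ) ≤ G.degree y := by exact_mod_cast hd y
        linarith
      field_simp
    rw [sum_congr rfl fun y _ => h3 y, sum_sub_distrib, ← mul_sum, hdeg, sum_const, nsmul_eq_mul,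
      card_univ]
    ring
  have h3 : ∑ x : V, ∑ _y ∈ G.neighborFinset x, (1 - (c : ℝ)) =
      2 * G.edgeFinset.card * (1 - c) := by
    rw [← hdeg, sum_mul]
    refine sum_congr rfl fun x _ => ?_
    rw [sum_const, nsmul_eq_mul, G.card_neighborFinset_eq_degree]
  refine le_trans (le_of_eq ?_) h1
  have h4 : ∑ x, ∑ y ∈ G.neighborFinset x, (2 : ℝ) ^ c * (kk G i x y - c + 1) =
      (2 : ℝ) ^ c * (∑ x, ∑ y ∈ G.neighborFinset x, kk G i x y +
        ∑ x : V, ∑ _y ∈ G.neighborFinset x, (1 - (c : ℝ))) := by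
    rw [← sum_add_distrib, mul_sum]
    refine sum_congr rfl fun x _ => ?_
    rw [← sum_add_distrib, mul_sum]
    refine sum_congr rfl fun y _ => ?_
    ring
  rw [h4, sum_kk hd, h2, h3]
  ring

/-- the piecewise linear Moore bound -/
theorem gb (hg : Girth G.Adj 12) (hd : ∀ v, 2 ≤ G.degree v) (c : ℕ → ℤ) :
    ∑ i ∈ range 6, (2 : ℝ) ^ (c i) * (6 * i * ((G.edgeFinset.card : ℝ) - Fintype.card V) -
      2 * G.edgeFinset.card * ((c i : ℝ) - 1)) ≤ G.edgeFinset.card * Fintype.card V := by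
  set n : ℝ := (Fintype.card V : ℝ) with hn
  set m : ℝ := (G.edgeFinset.card : ℝ) with hm
  have hdeg : ∑ v, (G.degree v : ℝ) = 2 * m := by
    have h1 := G.sum_degrees_eq_twice_card_edges
    rw [hm]
    exact_mod_cast h1
  have hsum : ∑ x, ∑ y ∈ G.neighborFinset x, ∑ i ∈ range 6, ((T G i x y : ℝ) + T G i y x) ≤
      2 * m * n := by
    have h1 : ∑ x, ∑ y ∈ G.neighborFinset x, ∑ i ∈ range 6, ((T G i x y : ℝ) + T G i y x) ≤
        ∑ x, ∑ _y ∈ G.neighborFinset x, n := by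
      refine sum_le_sum fun x _ => sum_le_sum fun y hy => ?_
      have h2 := count hg ((G.mem_neighborFinset x y).1 hy)
      rw [hn]
      exact_mod_cast h2
    refine h1.trans (le_of_eq ?_)
    rw [← hdeg, sum_mul]
    refine sum_congr rfl fun x _ => ?_
    rw [sum_const, nsmul_eq_mul, G.card_neighborFinset_eq_degree]
  have hsum2 : ∑ x, ∑ y ∈ G.neighborFinset x, ∑ i ∈ range 6, ((T G i x y : ℝ) + T G i y x) =
      ∑ i ∈ range 6, 2 * ∑ x, ∑ y ∈ G.neighborFinset x, (T G i x y : ℝ) := by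
    have h1 : ∀ x : V, ∑ y ∈ G.neighborFinset x, ∑ i ∈ range 6, ((T G i x y : ℝ) + T G i y x) =
        ∑ i ∈ range 6, ∑ y ∈ G.neighborFinset x, ((T G i x y : ℝ) + T G i y x) :=
      fun x => sum_comm
    rw [sum_congr rfl fun x _ => h1 x, sum_comm]
    refine sum_congr rfl fun i _ => ?_
    simp only [sum_add_distrib]
    rw [swap (fun x y => (T G i y x : ℝ))]
    ring
  have h3 : ∑ i ∈ range 6, (2 : ℝ) ^ (c i) * (6 * i * (m - n) - 2 * m * ((c i : ℝ) - 1)) ≤
      ∑ i ∈ range 6, ∑ x, ∑ y ∈ G.neighborFinset x, (T G i x y : ℝ) :=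
    sum_le_sum fun i hi => walks hg hd (by rw [mem_range] at hi; omega) (c i)
  rw [hsum2, ← mul_sum] at hsum
  linarith

end Pool.Agent.H90.BW
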