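import Pool.Agent.H90.BW.Ex2
import Pool.Graph.R_seed8.Y335.FL.Iso

set_option autoImplicit false
set_option linter.unusedSectionVars false

/-! # Sets of 41 vertices have at least 23 outer neighbours -/

namespace Pool.Agent.H90.BW

open Finset Pool.Agent.TH676.Z Pool.Agent.Y335.FL Pool.Agent.Y335.FL.IsoAux

theorem iso22 {V : Type} [Fintype V] [DecidableEq V] (G : SimpleGraph V) [DecidableRel G.Adj]
    (hg : Girth G.Adj 12) (U : Finset V) (hU : ∀ v ∈ U, 3 ≤ G.degree v) (h41 : U.card = 41) :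
    23 ≤ (univ.filter (fun v => v ∉ U ∧ ∃ x ∈ U, G.Adj x v)).card := by
  by_contra hcon
  rw [not_le] at hcon
  obtain ⟨N, hN⟩ : ∃ N : Finset V, N = univ.filter (fun v => v ∉ U ∧ ∃ x ∈ U, G.Adj x v) :=
    ⟨_, rfl⟩
  rw [← hN] at hcon
  have hNm : ∀ v, v ∈ N ↔ v ∉ U ∧ ∃ x ∈ U, G.Adj x v := by
    intro v
    rw [hN]
    simp
  have hdis : Disjoint U N := Finset.disjoint_left.2 fun v hv hvN => ((hNm v).1 hvN).1 hv
  have has : ∀ x y, ai G U x y = ai G U y x := by
    intro x y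
    unfold ai
    exact if_congr (and_congr (G.adj_comm x y) or_comm) rfl rfl
  have ha0 : ∀ x, ai G U x x = 0 := by
    intro x
    unfold ai
    rw [if_neg fun h => G.loopless.irrefl x h.1]
  obtain ⟨f, hf⟩ : ∃ f, f = ∑ v ∈ N, ∑ y ∈ U, ai G U v y := ⟨_, rfl⟩
  obtain ⟨s, hs⟩ : ∃ s, s = ∑ v ∈ U, ∑ y ∈ U, ai G U v y := ⟨_, rfl⟩
  have hf' : ∑ v ∈ U, ∑ y ∈ N, ai G U v y = f := by
    rw [hf, Finset.sum_comm]
    exact Finset.sum_congr rfl fun v _ => Finset.sum_congr rfl fun y _ => has _ _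
  have hNN : ∀ v ∈ N, ∑ y ∈ N, ai G U v y = 0 := by
    intro v hv
    refine Finset.sum_eq_zero fun y hy => ?_
    unfold ai
    rw [if_neg]
    rintro ⟨-, h | h⟩
    · exact ((hNm v).1 hv).1 h
    · exact ((hNm y).1 hy).1 h
  have hsplit : ∀ v, ∑ y ∈ U ∪ N, ai G U v y = ∑ y ∈ U, ai G U v y + ∑ y ∈ N, ai G U v y :=
    fun v => Finset.sum_union hdis
  have hD : IsoAux.Dg (ai G U) (U ∪ N) = s + 2 * f := by
    unfold IsoAux.Dg
    rw [Finset.sum_union hdis, Finset.sum_congr rfl fun v _ => hsplit v,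
      Finset.sum_congr (s₁ := N) rfl fun v hv => (hsplit v).trans (by rw [hNN v hv, add_zero]),
      Finset.sum_add_distrib, hf', ← hs, ← hf]
    ring
  -- degrees on `U`
  have hsf : 3 * U.card ≤ s + f := by
    have h1 : s + f = ∑ v ∈ U, ∑ y ∈ U ∪ N, ai G U v y := by
      rw [Finset.sum_congr rfl fun v _ => hsplit v, Finset.sum_add_distrib, hf', hs]
    rw [h1, mul_comm, ← smul_eq_mul, ← Finset.sum_const]
    refine Finset.sum_le_sum fun v hv => (hU v hv).trans ?_
    rw [← SimpleGraph.card_neighborFinset_eq_degree]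
    have h2 : ∀ y ∈ U ∪ N, ai G U v y = if G.Adj v y then 1 else 0 := by
      intro y _
      unfold ai
      simp [hv]
    rw [Finset.sum_congr rfl h2, ← Finset.card_filter]
    refine Finset.card_le_card fun y hy => ?_
    rw [SimpleGraph.mem_neighborFinset] at hy
    rw [Finset.mem_filter, Finset.mem_union]
    refine ⟨?_, hy⟩
    by_cases hyU : y ∈ U
    · exact Or.inl hyU
    · exact Or.inr ((hNm y).2 ⟨hyU, v, hv, hy⟩)
  have hone : ∀ v ∈ N, 1 ≤ ∑ y ∈ U, ai G U v y := by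
    intro v hv
    obtain ⟨-, x, hx, hxv⟩ := (hNm v).1 hv
    have h1 : ai G U v x = 1 := by
      unfold ai
      rw [if_pos ⟨hxv.symm, Or.inr hx⟩]
    rw [← h1]
    exact Finset.single_le_sum (f := fun y => ai G U v y) (fun _ _ => Nat.zero_le _) hx
  have hfN : N.card ≤ f := by
    rw [hf, Finset.card_eq_sum_ones]
    exact Finset.sum_le_sum hone
  have hcard : (U ∪ N).card = U.card + N.card := Finset.card_union_of_disjoint hdis
  have heven := Dg_GY G U (U ∪ N)
  have hc : 2 * (U ∪ N).card + 8 ≤ IsoAux.Dg (ai G U) (U ∪ N) := by omega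
  obtain ⟨Y, hY1, hY2, hY3⟩ := core has ha0 _ (U ∪ N) rfl hc
  have h1 := Dg_GY G U Y
  have h2 : Fintype.card {x // x ∈ Y} = Y.card := Fintype.card_coe Y
  have h3 := Finset.card_le_card hY1
  have h4 := ex22 (GY G U Y) (fun v => by
    rw [deg_GY]
    exact hY2 v.1 v.2) (girth_GY G U Y hg) (by omega) (by omega)
  obtain ⟨b, hb⟩ : ∃ b, b = (Y.filter (· ∈ N)).card := ⟨_, rfl⟩
  have h5 : Y.card ≤ U.card + b := by
    have h6 : Y ⊆ U ∪ Y.filter (· ∈ N) := by
      intro y hy
      rcases Finset.mem_union.1 (hY1 hy) with h | h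
      · exact Finset.mem_union_left _ h
      · exact Finset.mem_union_right _ (Finset.mem_filter.2 ⟨hy, h⟩)
    rw [hb]
    exact (Finset.card_le_card h6).trans (Finset.card_union_le _ _)
  have h6 : N.card + b ≤ f := by
    have h7 : b = ∑ v ∈ N, if v ∈ Y then 1 else 0 := by
      rw [hb, ← Finset.card_filter]
      congr 1
      ext v
      simp only [Finset.mem_filter]
      exact and_comm
    rw [h7, Finset.card_eq_sum_ones, ← Finset.sum_add_distrib, hf]
    refine Finset.sum_le_sum fun v hv => ?_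
    by_cases hvY : v ∈ Y
    · rw [if_pos hvY]
      refine (hY2 v hvY).trans ?_
      have h8 : ∑ z ∈ Y, ai G U v z ≤ ∑ z ∈ U ∪ N, ai G U v z :=
        Finset.sum_le_sum_of_subset hY1
      rw [hsplit, hNN v hv, add_zero] at h8
      exact h8
    · rw [if_neg hvY, add_zero]
      exact hone v hv
  omega

end Pool.Agent.H90.BW
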