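import Pool.Agent.H90.BW.Iso2
import Pool.Graph.R_seed8.Y335.FL.Main
import Pool.Graph.R_seed8.Y335.FL.Order

set_option autoImplicit false
set_option linter.unusedSectionVars false

/-! # Path decompositions -/

namespace Pool.Agent.H90.BW

open Finset Pool.Agent.TH676.Z Pool.Agent.Y335.FL

variable {V E : Type} [Fintype V] [DecidableEq V] [Fintype E] [DecidableEq E]

/-- The sets `X 0, X 1, ...` are a path decomposition with bags of at most `w` vertices (a finite
sequence is continued by empty sets): the ends of every non-loop edge are together in one of the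
sets, and the indices of the sets which contain a given vertex form an interval. -/
structure PathDec (src dst : E → V) (w : ℕ) (X : ℕ → Finset V) : Prop where
  edge : ∀ e, src e ≠ dst e → ∃ i, src e ∈ X i ∧ dst e ∈ X i
  conv : ∀ i j k v, i ≤ j → j ≤ k → v ∈ X i → v ∈ X k → v ∈ X j
  width : ∀ i, (X i).card ≤ w

/-- the class -/
def HasPD (w : ℕ) (src dst : E → V) : Prop := ∃ X, PathDec src dst w X

theorem ctr_eq' {u v p q : V} (hpq : p ≠ q) (h : ctr u v p = ctr u v q) :
    (p = u ∧ q = v) ∨ (p = v ∧ q = u) := by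
  unfold ctr at h
  by_cases h1 : p = v <;> by_cases h2 : q = v
  · exact absurd (h1.trans h2.symm) hpq
  · rw [if_pos h1, if_neg h2] at h
    exact Or.inr ⟨h1, h.symm⟩
  · rw [if_neg h1, if_pos h2] at h
    exact Or.inl ⟨h, h2⟩
  · rw [if_neg h1, if_neg h2] at h
    exact absurd h hpq

/-- the class is closed under minors -/
theorem mcPD (w : ℕ) : MC (V := V) (E := E) (HasPD w) := by
  constructor
  · rintro src dst e ⟨X, hX⟩ -
    refine ⟨X, fun f hf => ?_, hX.conv, hX.width⟩
    have h1 : Pool.Agent.TH676.Z.lp src dst {e} f = dst f := by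
      unfold Pool.Agent.TH676.Z.lp at hf ⊢
      by_cases h : f ∈ ({e} : Finset E)
      · rw [if_pos h] at hf
        exact absurd rfl hf
      · rw [if_neg h]
    rw [h1] at hf ⊢
    exact hX.edge f hf
  · rintro src dst e ⟨X, hX⟩ he
    refine ⟨fun i => (X i).image (ctr (src e) (dst e)), fun f hf => ?_, ?_, fun i =>
      Finset.card_image_le.trans (hX.width i)⟩
    · have h1 : src f ≠ dst f := fun h => hf (congrArg (ctr (src e) (dst e)) h)
      obtain ⟨i, h2, h3⟩ := hX.edge f h1
      exact ⟨i, Finset.mem_image_of_mem _ h2, Finset.mem_image_of_mem _ h3⟩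
    · intro i j k v hij hjk hi hk
      obtain ⟨p, hp, hpv⟩ := Finset.mem_image.1 hi
      obtain ⟨q, hq, hqv⟩ := Finset.mem_image.1 hk
      by_cases hpq : p = q
      · subst hpq
        exact Finset.mem_image.2 ⟨p, hX.conv i j k p hij hjk hp hq, hpv⟩
      · obtain ⟨b, hb1, hb2⟩ := hX.edge e he
        have hb : p ∈ X b ∧ q ∈ X b := by
          rcases ctr_eq' hpq (hpv.trans hqv.symm) with ⟨rfl, rfl⟩ | ⟨rfl, rfl⟩
          · exact ⟨hb1, hb2⟩
          · exact ⟨hb2, hb1⟩
        rcases le_total b j with h | h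
        · exact Finset.mem_image.2 ⟨q, hX.conv b j k q h hjk hb.2 hq, hqv⟩
        · exact Finset.mem_image.2 ⟨p, hX.conv i j b p hij h hp hb.1, hpv⟩

/-- no path decomposition with bags of at most 23 vertices -/
theorem noPD {src dst : E → V} (hg : Girth (Adj src dst) 12) (h3 : Three (Adj src dst))
    {X : ℕ → Finset V} (hX : PathDec src dst 23 X) {e : E} (he : src e ≠ dst e) : False := by
  classical
  have hs : ∀ a b, Adj src dst a b → Adj src dst b a :=
    fun a b h => ⟨h.1.symm, h.2.imp fun e he => he.symm⟩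
  have hi : ∀ a, ¬ Adj src dst a a := fun a h => h.1 rfl
  obtain ⟨W, hW⟩ : ∃ W, W = univ.filter (fun v => ∃ y, Adj src dst v y) := ⟨_, rfl⟩
  have hWm : ∀ v, v ∈ W ↔ ∃ y, Adj src dst v y := by
    intro v
    rw [hW]
    simp
  have h126 : 126 ≤ W.card := by
    rw [hW]
    have := moore V (Adj src dst) hs hi hg h3 ⟨src e, dst e, he, e, Or.inl ⟨rfl, rfl⟩⟩
    convert this
  -- common bags
  have hbag : ∀ a b, Adj src dst a b → ∃ i, a ∈ X i ∧ b ∈ X i := by
    rintro a b ⟨hab, f, hf⟩
    rcases hf with ⟨rfl, rfl⟩ | ⟨rfl, rfl⟩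
    · exact hX.edge f hab
    · obtain ⟨i, h1, h2⟩ := hX.edge f hab.symm
      exact ⟨i, h2, h1⟩
  have hin : ∀ v ∈ W, ∃ i, v ∈ X i := by
    intro v hv
    obtain ⟨y, hy⟩ := (hWm v).1 hv
    obtain ⟨i, h1, -⟩ := hbag v y hy
    exact ⟨i, h1⟩
  -- the first bag
  obtain ⟨f, hf⟩ : ∃ f : V → ℕ, ∀ v ∈ W, v ∈ X (f v) ∧ ∀ j, v ∈ X j → f v ≤ j := by
    refine ⟨fun v => if h : ∃ i, v ∈ X i then Nat.find h else 0, fun v hv => ?_⟩
    have h := hin v hv
    simp only [dif_pos h]
    exact ⟨Nat.find_spec h, fun j hj => Nat.find_min' h hj⟩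
  have hex : ∃ t, (W.filter (fun v => t ≤ f v)).card < 41 := by
    refine ⟨W.sup f + 1, ?_⟩
    rw [Finset.filter_eq_empty_iff.2, Finset.card_empty]
    · norm_num
    · intro v hv hlt
      have := Finset.le_sup (f := f) hv
      omega
  have ht1 := Nat.find_spec hex
  obtain ⟨t, ht⟩ : ∃ t, Nat.find hex = t + 1 := by
    refine Nat.exists_eq_add_one.2 (Nat.pos_of_ne_zero fun h0 => ?_)
    rw [h0] at ht1
    rw [Finset.filter_true_of_mem (fun v _ => Nat.zero_le _)] at ht1
    omega
  have ht2 : ¬ (W.filter (fun v => t ≤ f v)).card < 41 := Nat.find_min hex (by omega)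
  rw [ht] at ht1
  have hsub : W.filter (fun v => t + 1 ≤ f v) ⊆ W.filter (fun v => t ≤ f v) := by
    intro v hv
    rw [Finset.mem_filter] at hv ⊢
    exact ⟨hv.1, by omega⟩
  obtain ⟨U, hU1, hU2, hU3⟩ := Finset.exists_subsuperset_card_eq hsub (n := 41) (by omega)
    (by omega)
  -- a vertex of `U` in the bag
  obtain ⟨z, hzU, hz⟩ : ∃ z ∈ U, z ∉ W.filter (fun v => t + 1 ≤ f v) := by
    by_contra hcon
    push Not at hcon
    have := Finset.card_le_card (show U ⊆ _ from hcon)
    omega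
  have hUW : ∀ v ∈ U, v ∈ W ∧ t ≤ f v := by
    intro v hv
    have := hU2 hv
    rwa [Finset.mem_filter] at this
  have hzt : z ∈ X t := by
    have h1 := hUW z hzU
    have h2 : ¬ t + 1 ≤ f z := fun h => hz (Finset.mem_filter.2 ⟨h1.1, h⟩)
    have h4 : f z = t := by omega
    have h5 := (hf z h1.1).1
    rwa [h4] at h5
  -- the graph
  let G : SimpleGraph V := ⟨Adj src dst, ⟨fun a b h => hs a b h⟩, ⟨hi⟩⟩
  have hN := iso22 G hg U (by
    intro v hv
    obtain ⟨y, hy⟩ := (hWm v).1 (hUW v hv).1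
    obtain ⟨a, b, c, ha, hb, hc, hab, hac, hbc⟩ := h3 v y hy
    rw [← SimpleGraph.card_neighborFinset_eq_degree]
    have hsub : ({a, b, c} : Finset V) ⊆ G.neighborFinset v := by
      intro w hw
      rw [SimpleGraph.mem_neighborFinset]
      simp only [mem_insert, mem_singleton] at hw
      rcases hw with rfl | rfl | rfl
      · exact ha
      · exact hb
      · exact hc
    have h5 := card_le_card hsub
    rwa [card_eq_three.2 ⟨a, b, c, hab, hac, hbc, rfl⟩] at h5) hU3
  have hsub2 : univ.filter (fun v => v ∉ U ∧ ∃ x ∈ U, G.Adj x v) ⊆ (X t).erase z := by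
    intro v hv
    rw [mem_filter] at hv
    obtain ⟨-, hvU, x, hx, hxv⟩ := hv
    rw [mem_erase]
    refine ⟨fun h => hvU (h ▸ hzU), ?_⟩
    have hxv' : Adj src dst x v := hxv
    have hvW : v ∈ W := (hWm v).2 ⟨x, hs _ _ hxv'⟩
    have h1 : f v ≤ t := by
      by_contra hlt
      exact hvU (hU1 (Finset.mem_filter.2 ⟨hvW, by omega⟩))
    obtain ⟨b, hb1, hb2⟩ := hbag x v hxv'
    have h2 := (hf x (hUW x hx).1).2 b hb1
    have h4 := (hUW x hx).2
    exact hX.conv (f v) t b v h1 (by omega) (hf v hvW).1 hb2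
  have h6 := card_le_card hsub2
  rw [card_erase_of_mem hzt] at h6
  have h7 := hX.width t
  omega

/-- graphs of pathwidth at most 22 -/
theorem flow_pd {src dst : E → V} (h : HasPD 23 src dst) (hb : Br src dst ∅ ∅) :
    FlowOn src dst ∅ ∅ := by
  by_contra hn
  obtain ⟨s, d, ⟨X, hX⟩, hM⟩ := crit V E (HasPD 23) (mcPD 23) src dst h hb hn
  obtain ⟨-, hT⟩ := gi_all V E s d hM
  have hG := girth_all V E s d hM
  refine hM.nf (flow_of_loops fun e => ?_)
  by_contra he
  exact noPD hG hT hX he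

end Pool.Agent.H90.BW
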