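import Pool.Agent.H90.BW.Ex
import Pool.Graph.R_seed8.Y335.FL.Iso

set_option autoImplicit false
set_option linter.unusedSectionVars false

/-! # Separations of a graph of girth twelve and minimum degree three -/

namespace Pool.Agent.H90.BW

open Finset Pool.Agent.TH676.Z Pool.Agent.Y335.FL Pool.Agent.Y335.FL.IsoAux

variable {V E : Type} [Fintype V] [DecidableEq V] [Fintype E] [DecidableEq E]

/-- the vertices which are ends of an edge in `A` and of an edge outside `A` (loops disregarded) -/
def mid (src dst : E → V) (A : Finset E) : Finset V :=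
  univ.filter (fun x => (∃ e ∈ A, src e ≠ dst e ∧ (src e = x ∨ dst e = x)) ∧
    ∃ e, e ∉ A ∧ src e ≠ dst e ∧ (src e = x ∨ dst e = x))

theorem mem_mid {src dst : E → V} {A : Finset E} {x : V} : x ∈ mid src dst A ↔
    (∃ e ∈ A, src e ≠ dst e ∧ (src e = x ∨ dst e = x)) ∧
    ∃ e, e ∉ A ∧ src e ≠ dst e ∧ (src e = x ∨ dst e = x) := by
  simp [mid]

/-- `x` and `y` are joined by an edge in `A` -/
def JA (src dst : E → V) (A : Finset E) (x y : V) : Prop :=
  x ≠ y ∧ ∃ e ∈ A, (src e = x ∧ dst e = y) ∨ (src e = y ∧ dst e = x)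

instance (src dst : E → V) (A : Finset E) (x y : V) : Decidable (JA src dst A x y) := by
  unfold JA
  infer_instance

/-- the indicator -/
def ia (src dst : E → V) (A : Finset E) (x y : V) : ℕ := if JA src dst A x y then 1 else 0

theorem JA.symm {src dst : E → V} {A : Finset E} {x y : V} (h : JA src dst A x y) :
    JA src dst A y x := ⟨h.1.symm, h.2.imp fun _ he => ⟨he.1, he.2.symm⟩⟩

theorem ia_symm (src dst : E → V) (A : Finset E) (x y : V) :
    ia src dst A x y = ia src dst A y x := by
  unfold ia
  exact if_congr ⟨fun h => h.symm, fun h => h.symm⟩ rfl rfl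

theorem ia_self (src dst : E → V) (A : Finset E) (x : V) : ia src dst A x x = 0 := by
  unfold ia
  rw [if_neg fun h => h.1 rfl]

/-- the graph of the edges in `A` on the vertex set `Y` -/
def GA (src dst : E → V) (A : Finset E) (Y : Finset V) : SimpleGraph {x // x ∈ Y} where
  Adj x y := JA src dst A x.1 y.1
  symm := ⟨fun _ _ h => h.symm⟩
  loopless := ⟨fun _ h => h.1 rfl⟩

instance (src dst : E → V) (A : Finset E) (Y : Finset V) : DecidableRel (GA src dst A Y).Adj :=
  fun x y => inferInstanceAs (Decidable (JA src dst A x.1 y.1))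

theorem deg_GA (src dst : E → V) (A : Finset E) (Y : Finset V) (v : {x // x ∈ Y}) :
    (GA src dst A Y).degree v = ∑ y ∈ Y, ia src dst A v.1 y := by
  rw [← SimpleGraph.card_neighborFinset_eq_degree, ← Finset.sum_coe_sort Y,
    SimpleGraph.neighborFinset_eq_filter, Finset.card_filter]
  rfl

theorem Dg_GA (src dst : E → V) (A : Finset E) (Y : Finset V) :
    Dg (ia src dst A) Y = 2 * (GA src dst A Y).edgeFinset.card := by
  rw [← SimpleGraph.sum_degrees_eq_twice_card_edges]
  unfold Dg
  rw [← Finset.sum_coe_sort Y]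
  exact Finset.sum_congr rfl fun v _ => (deg_GA src dst A Y v).symm

theorem girth_GA {src dst : E → V} (A : Finset E) (Y : Finset V)
    (h : Girth (Adj src dst) 12) : Girth (GA src dst A Y).Adj 12 := by
  intro k hk v hv hadj
  refine h k hk (fun i => (v i).1) (Subtype.val_injective.comp hv) fun i => ?_
  have h1 : JA src dst A (v i).1 (v (i + 1)).1 := hadj i
  exact ⟨h1.1, h1.2.imp fun _ he => he.2⟩

/-- the ends of the edges in `A` -/
def VA (src dst : E → V) (A : Finset E) : Finset V :=
  univ.filter (fun x => ∃ y, JA src dst A x y)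

theorem mem_VA {src dst : E → V} {A : Finset E} {x : V} :
    x ∈ VA src dst A ↔ ∃ y, JA src dst A x y := by simp [VA]

theorem ia_zero {src dst : E → V} {A : Finset E} {x : V} (hx : x ∉ VA src dst A) (y : V) :
    ia src dst A x y = 0 := by
  unfold ia
  rw [if_neg fun h => hx (mem_VA.2 ⟨y, h⟩)]

theorem sum_VA (src dst : E → V) (A : Finset E) (x : V) :
    ∑ y ∈ VA src dst A, ia src dst A x y = ∑ y, ia src dst A x y :=
  Finset.sum_subset (Finset.subset_univ _) fun y _ hy => by
    rw [ia_symm, ia_zero hy]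

theorem Dg_VA (src dst : E → V) (A : Finset E) :
    Dg (ia src dst A) (VA src dst A) = Dg (ia src dst A) univ := by
  unfold Dg
  rw [Finset.sum_congr rfl fun x _ => sum_VA src dst A x]
  exact Finset.sum_subset (Finset.subset_univ _) fun x _ hx =>
    Finset.sum_eq_zero fun y _ => ia_zero hx y

/-- vertices with a neighbour have three neighbours in `A`, except for those in the middle -/
theorem three_VA {src dst : E → V} (h3 : Three (Adj src dst)) {A : Finset E} {x : V}
    (hx : x ∈ VA src dst A) (hm : x ∉ mid src dst A) : 3 ≤ ∑ y, ia src dst A x y := by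
  obtain ⟨y, hxy, e, heA, he⟩ := mem_VA.1 hx
  have hprop : src e ≠ dst e := by
    rcases he with ⟨h1, h2⟩ | ⟨h1, h2⟩
    · rw [h1, h2]; exact hxy
    · rw [h1, h2]; exact hxy.symm
  have hinc : src e = x ∨ dst e = x := by
    rcases he with ⟨h1, h2⟩ | ⟨h1, h2⟩
    · exact Or.inl h1
    · exact Or.inr h2
  have hall : ∀ z, Adj src dst x z → ia src dst A x z = 1 := by
    rintro z ⟨hz, f, hf⟩
    have hpf : src f ≠ dst f := by
      rcases hf with ⟨h1, h2⟩ | ⟨h1, h2⟩
      · rw [h1, h2]; exact hz
      · rw [h1, h2]; exact hz.symm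
    have hif : src f = x ∨ dst f = x := by
      rcases hf with ⟨h1, h2⟩ | ⟨h1, h2⟩
      · exact Or.inl h1
      · exact Or.inr h2
    have hfA : f ∈ A := by
      by_contra hfA
      exact hm (mem_mid.2 ⟨⟨e, heA, hprop, hinc⟩, f, hfA, hpf, hif⟩)
    unfold ia
    rw [if_pos ⟨hz, f, hfA, hf⟩]
  obtain ⟨a, b, c, ha, hb, hc, hab, hac, hbc⟩ := h3 x y ⟨hxy, e, he⟩
  calc 3 = ∑ z ∈ ({a, b, c} : Finset V), ia src dst A x z := by
        rw [Finset.sum_congr rfl (g := fun _ => 1)]
        · rw [Finset.sum_const, smul_eq_mul, mul_one, Finset.card_eq_three.2 ⟨a, b, c, hab, hac, hbc, rfl⟩]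
        · intro z hz
          simp only [Finset.mem_insert, Finset.mem_singleton] at hz
          rcases hz with rfl | rfl | rfl
          · exact hall _ ha
          · exact hall _ hb
          · exact hall _ hc
    _ ≤ _ := Finset.sum_le_sum_of_subset (Finset.subset_univ _)

/-- A separation with at most 19 middle vertices has at most 50 or at least 101 edges on each
side. -/
theorem sep {src dst : E → V} (hg : Girth (Adj src dst) 12) (h3 : Three (Adj src dst))
    (A : Finset E) (hm : (mid src dst A).card ≤ 19) (h1 : 102 ≤ Dg (ia src dst A) univ)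
    (h2 : Dg (ia src dst A) univ ≤ 200) : False := by
  obtain ⟨X, hX⟩ : ∃ X, X = VA src dst A := ⟨_, rfl⟩
  obtain ⟨N, hN⟩ : ∃ N, N = X ∩ mid src dst A := ⟨_, rfl⟩
  obtain ⟨U, hU⟩ : ∃ U, U = X \ mid src dst A := ⟨_, rfl⟩
  have hUN : U.card + N.card = X.card := by
    rw [hU, hN, add_comm]
    exact Finset.card_inter_add_card_sdiff X (mid src dst A)
  have hN19 : N.card ≤ 19 := by
    rw [hN]
    exact (Finset.card_le_card Finset.inter_subset_right).trans hm
  have hD : Dg (ia src dst A) X = Dg (ia src dst A) univ := by rw [hX]; exact Dg_VA src dst A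
  have hsum : ∀ v, ∑ y ∈ X, ia src dst A v y = ∑ y, ia src dst A v y := by
    intro v; rw [hX]; exact sum_VA src dst A v
  have hXU : X = U ∪ N := by
    rw [hU, hN, Finset.sdiff_union_inter]
  have hdis : Disjoint U N := by
    rw [hU, hN]
    exact Finset.disjoint_sdiff_inter X (mid src dst A)
  have hone : ∀ v ∈ X, 1 ≤ ∑ y, ia src dst A v y := by
    intro v hv
    rw [hX] at hv
    obtain ⟨y, hy⟩ := mem_VA.1 hv
    have h4 : ia src dst A v y = 1 := by unfold ia; rw [if_pos hy]
    rw [← h4]
    exact Finset.single_le_sum (f := fun y => ia src dst A v y) (fun _ _ => Nat.zero_le _)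
      (Finset.mem_univ y)
  have hthree : ∀ v ∈ U, 3 ≤ ∑ y, ia src dst A v y := by
    intro v hv
    rw [hU, Finset.mem_sdiff, hX] at hv
    exact three_VA h3 hv.1 hv.2
  have hDs : Dg (ia src dst A) X = ∑ v ∈ U, ∑ y, ia src dst A v y +
      ∑ v ∈ N, ∑ y, ia src dst A v y := by
    rw [← Finset.sum_union hdis, ← hXU]
    unfold Dg
    exact Finset.sum_congr rfl fun v _ => hsum v
  have hU3 : 3 * U.card ≤ ∑ v ∈ U, ∑ y, ia src dst A v y := by
    rw [mul_comm, ← smul_eq_mul, ← Finset.sum_const]
    exact Finset.sum_le_sum hthree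
  have hN1 : N.card ≤ ∑ v ∈ N, ∑ y, ia src dst A v y := by
    rw [Finset.card_eq_sum_ones]
    exact Finset.sum_le_sum fun v hv => hone v (by rw [hXU]; exact Finset.mem_union_right _ hv)
  by_cases hc : 2 * X.card + 8 ≤ Dg (ia src dst A) X
  · obtain ⟨Y, hY1, hY2, hY3⟩ := core (ia_symm src dst A) (ia_self src dst A) _ X rfl hc
    have h4 := Dg_GA src dst A Y
    have h5 : Fintype.card {x // x ∈ Y} = Y.card := Fintype.card_coe Y
    obtain ⟨b, hb⟩ : ∃ b, b = (Y.filter (· ∈ N)).card := ⟨_, rfl⟩
    have h6 : Y.card ≤ U.card + b := by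
      have h7 : Y ⊆ U ∪ Y.filter (· ∈ N) := by
        intro y hy
        have h8 := hY1 hy
        rw [hXU] at h8
        rcases Finset.mem_union.1 h8 with h | h
        · exact Finset.mem_union_left _ h
        · exact Finset.mem_union_right _ (Finset.mem_filter.2 ⟨hy, h⟩)
      rw [hb]
      exact (Finset.card_le_card h7).trans (Finset.card_union_le _ _)
    have hbN : b ≤ N.card := by
      rw [hb]
      exact Finset.card_le_card fun y hy => (Finset.mem_filter.1 hy).2
    have h7 : N.card + b ≤ ∑ v ∈ N, ∑ y, ia src dst A v y := by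
      have h8 : b = ∑ v ∈ N, if v ∈ Y then 1 else 0 := by
        rw [hb, ← Finset.card_filter]
        congr 1
        ext v
        simp only [Finset.mem_filter]
        exact and_comm
      rw [h8, Finset.card_eq_sum_ones, ← Finset.sum_add_distrib]
      refine Finset.sum_le_sum fun v hv => ?_
      by_cases hvY : v ∈ Y
      · rw [if_pos hvY]
        refine (hY2 v hvY).trans ?_
        exact Finset.sum_le_sum_of_subset (Finset.subset_univ _)
      · rw [if_neg hvY, add_zero]
        exact hone v (by rw [hXU]; exact Finset.mem_union_right _ hv)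
    have h8 := ex19 (GA src dst A Y) (fun v => by
      rw [deg_GA]
      exact hY2 v.1 v.2) (girth_GA A Y hg) (by omega) (by omega)
    omega
  · omega

end Pool.Agent.H90.BW
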