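import Pool.Agent.H90.BW.Sep
import Pool.Graph.R_seed8.Y335.FL.Main
import Pool.Graph.R_seed8.Y335.FL.Order

set_option autoImplicit false
set_option linter.unusedSectionVars false

/-! # Branch decompositions -/

namespace Pool.Agent.H90.BW

open Finset Pool.Agent.TH676.Z Pool.Agent.Y335.FL Pool.Agent.Y335.FL.IsoAux

/-- Binary trees whose leaves are labelled by elements of `E`. -/
inductive BTree (E : Type) : Type
  | leaf (e : E) : BTree E
  | node (l r : BTree E) : BTree E

/-- The set of the labels of the leaves. -/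
def BTree.labels {E : Type} [DecidableEq E] : BTree E → Finset E
  | .leaf e => {e}
  | .node l r => l.labels ∪ r.labels

/-- `P` holds for the sets of labels of all subtrees. -/
def BTree.All {E : Type} [DecidableEq E] (P : Finset E → Prop) : BTree E → Prop
  | .leaf e => P {e}
  | .node l r => P (l.labels ∪ r.labels) ∧ l.All P ∧ r.All P

theorem BTree.All.mono {E : Type} [DecidableEq E] {P Q : Finset E → Prop}
    (h : ∀ A, P A → Q A) : ∀ t : BTree E, t.All P → t.All Q
  | .leaf _ => h _
  | .node l r => fun ht => ⟨h _ ht.1, BTree.All.mono h l ht.2.1, BTree.All.mono h r ht.2.2⟩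

variable {V E : Type} [Fintype V] [DecidableEq V] [Fintype E] [DecidableEq E]

/-- a branch decomposition of width at most `w` -/
def HasBD (w : ℕ) (src dst : E → V) : Prop :=
  ∃ t : BTree E, (∀ e, e ∈ t.labels) ∧ t.All (fun A => (mid src dst A).card ≤ w)

theorem mid_lp (src dst : E → V) (e : E) (A : Finset E) :
    mid src (lp src dst {e}) A ⊆ mid src dst A := by
  have key : ∀ f x, src f ≠ lp src dst {e} f → (src f = x ∨ lp src dst {e} f = x) →
      src f ≠ dst f ∧ (src f = x ∨ dst f = x) := by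
    intro f x h1 h2
    unfold Pool.Agent.TH676.Z.lp at h1 h2
    by_cases hf : f ∈ ({e} : Finset E)
    · rw [if_pos hf] at h1
      exact absurd rfl h1
    · rw [if_neg hf] at h1 h2
      exact ⟨h1, h2⟩
  intro x hx
  obtain ⟨⟨f, hf, h1, h2⟩, g, hg, h3, h4⟩ := mem_mid.1 hx
  exact mem_mid.2 ⟨⟨f, hf, key f x h1 h2⟩, g, hg, key g x h3 h4⟩

theorem ctr_eq {u v p q : V} (hpq : p ≠ q) (h : ctr u v p = ctr u v q) :
    (p = u ∨ p = v) ∧ (q = u ∨ q = v) := by
  unfold ctr at h
  by_cases h1 : p = v <;> by_cases h2 : q = v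
  · exact absurd (h1.trans h2.symm) hpq
  · rw [if_pos h1, if_neg h2] at h
    exact ⟨Or.inr h1, Or.inl h.symm⟩
  · rw [if_neg h1, if_pos h2] at h
    exact ⟨Or.inl h, Or.inr h2⟩
  · rw [if_neg h1, if_neg h2] at h
    exact absurd h hpq

theorem mid_ctr (src dst : E → V) (e : E) (he : src e ≠ dst e) (A : Finset E) :
    mid (ctr (src e) (dst e) ∘ src) (ctr (src e) (dst e) ∘ dst) A ⊆
      (mid src dst A).image (ctr (src e) (dst e)) := by
  have key : ∀ f x, (ctr (src e) (dst e) ∘ src) f ≠ (ctr (src e) (dst e) ∘ dst) f →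
      ((ctr (src e) (dst e) ∘ src) f = x ∨ (ctr (src e) (dst e) ∘ dst) f = x) →
      src f ≠ dst f ∧ ∃ p, (src f = p ∨ dst f = p) ∧ ctr (src e) (dst e) p = x := by
    intro f x h1 h2
    refine ⟨fun h => h1 (congrArg (ctr (src e) (dst e)) h), ?_⟩
    rcases h2 with h2 | h2
    · exact ⟨src f, Or.inl rfl, h2⟩
    · exact ⟨dst f, Or.inr rfl, h2⟩
  have hinc : ∀ p, (p = src e ∨ p = dst e) → (src e = p ∨ dst e = p) :=
    fun p hp => hp.imp Eq.symm Eq.symm
  intro x hx
  obtain ⟨⟨f, hf, h1, h2⟩, g, hg, h3, h4⟩ := mem_mid.1 hx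
  obtain ⟨hf1, p, hp, hpx⟩ := key f x h1 h2
  obtain ⟨hg1, q, hq, hqx⟩ := key g x h3 h4
  rw [Finset.mem_image]
  by_cases hpq : p = q
  · subst hpq
    exact ⟨p, mem_mid.2 ⟨⟨f, hf, hf1, hp⟩, g, hg, hg1, hq⟩, hpx⟩
  · obtain ⟨h5, h6⟩ := ctr_eq hpq (hpx.trans hqx.symm)
    by_cases heA : e ∈ A
    · exact ⟨q, mem_mid.2 ⟨⟨e, heA, he, hinc q h6⟩, g, hg, hg1, hq⟩, hqx⟩
    · exact ⟨p, mem_mid.2 ⟨⟨f, hf, hf1, hp⟩, e, heA, he, hinc p h5⟩, hpx⟩

/-- the class is closed under minors -/
theorem mcBD (w : ℕ) : MC (V := V) (E := E) (HasBD w) := by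
  constructor
  · rintro src dst e ⟨t, ht, hA⟩ -
    exact ⟨t, ht, BTree.All.mono
      (fun A h => (Finset.card_le_card (mid_lp src dst e A)).trans h) t hA⟩
  · rintro src dst e ⟨t, ht, hA⟩ he
    exact ⟨t, ht, BTree.All.mono (fun A h => ((Finset.card_le_card
      (mid_ctr src dst e he A)).trans Finset.card_image_le).trans h) t hA⟩

theorem ia_union (src dst : E → V) (A B : Finset E) (x y : V) :
    ia src dst (A ∪ B) x y ≤ ia src dst A x y + ia src dst B x y := by
  unfold ia
  by_cases h : JA src dst (A ∪ B) x y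
  · obtain ⟨h1, e, he, h2⟩ := h
    rcases Finset.mem_union.1 he with h3 | h3
    · have h4 : JA src dst A x y := ⟨h1, e, h3, h2⟩
      rw [if_pos h4]
      split_ifs <;> omega
    · have h4 : JA src dst B x y := ⟨h1, e, h3, h2⟩
      rw [if_pos h4]
      split_ifs <;> omega
  · rw [if_neg h]
    exact Nat.zero_le _

theorem Dg_union (src dst : E → V) (A B : Finset E) :
    Dg (ia src dst (A ∪ B)) univ ≤ Dg (ia src dst A) univ + Dg (ia src dst B) univ := by
  unfold IsoAux.Dg
  rw [← Finset.sum_add_distrib]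
  refine Finset.sum_le_sum fun x _ => ?_
  rw [← Finset.sum_add_distrib]
  exact Finset.sum_le_sum fun y _ => ia_union src dst A B x y

theorem Dg_leaf (src dst : E → V) (e : E) : Dg (ia src dst {e}) univ ≤ 2 := by
  have h1 : ∀ x y, ia src dst {e} x y ≤ (if x = src e then (if y = dst e then 1 else 0) else 0) +
      (if x = dst e then (if y = src e then 1 else 0) else 0) := by
    intro x y
    unfold ia
    by_cases h : JA src dst {e} x y
    · obtain ⟨h1, f, hf, h2⟩ := h
      rw [Finset.mem_singleton] at hf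
      subst hf
      have h3 : (if JA src dst {f} x y then 1 else 0) ≤ 1 := by split_ifs <;> omega
      rcases h2 with ⟨h4, h5⟩ | ⟨h4, h5⟩
      · rw [if_pos h4.symm, if_pos h5.symm]
        omega
      · rw [if_pos (show x = dst f from h5.symm), if_pos (show y = src f from h4.symm)]
        omega
    · rw [if_neg h]
      exact Nat.zero_le _
  unfold IsoAux.Dg
  calc ∑ x, ∑ y, ia src dst {e} x y ≤ ∑ x, ∑ y,
        ((if x = src e then (if y = dst e then 1 else 0) else 0) +
          (if x = dst e then (if y = src e then 1 else 0) else 0)) :=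
        Finset.sum_le_sum fun x _ => Finset.sum_le_sum fun y _ => h1 x y
    _ = 2 := by
        have h2 : ∀ a b : V, ∑ x : V, ∑ y : V, (if x = a then (if y = b then 1 else 0) else 0) = 1 := by
          intro a b
          rw [Finset.sum_eq_single a]
          · simp
          · intro x _ hx
            simp [hx]
          · intro h; exact absurd (Finset.mem_univ _) h
        simp only [Finset.sum_add_distrib, h2]

/-- all sets of labels have at most 50 edges -/
theorem descent {src dst : E → V} (hg : Girth (Adj src dst) 12) (h3 : Three (Adj src dst)) :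
    ∀ t : BTree E, t.All (fun A => (mid src dst A).card ≤ 19) →
      Dg (ia src dst t.labels) univ ≤ 101
  | .leaf e => fun _ => (Dg_leaf src dst e).trans (by norm_num)
  | .node l r => fun ht => by
    have hl := descent hg h3 l ht.2.1
    have hr := descent hg h3 r ht.2.2
    by_contra hcon
    have h1 := Dg_GA src dst l.labels univ
    have h2 := Dg_GA src dst r.labels univ
    have h4 := Dg_union src dst l.labels r.labels
    have h5 : ¬ Dg (ia src dst (l.labels ∪ r.labels)) univ ≤ 101 := hcon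
    exact sep hg h3 (l.labels ∪ r.labels) ht.1 (by omega) (by omega)

/-- a graph with girth twelve and three neighbours at each vertex has many edges -/
theorem many {src dst : E → V} (hg : Girth (Adj src dst) 12) (h3 : Three (Adj src dst))
    {A : Finset E} (hA : ∀ e, e ∈ A) {e : E} (he : src e ≠ dst e) :
    378 ≤ Dg (ia src dst A) univ := by
  classical
  have h1 := moore V (Adj src dst) (fun a b h => ⟨h.1.symm, h.2.imp fun e he => he.symm⟩)
    (fun a h => h.1 rfl) hg h3 ⟨src e, dst e, he, e, Or.inl ⟨rfl, rfl⟩⟩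
  have h2 : (univ.filter (fun v => ∃ y, Adj src dst v y)) ⊆ VA src dst A := by
    intro x hx
    rw [Finset.mem_filter] at hx
    obtain ⟨-, y, hxy, f, hf⟩ := hx
    exact mem_VA.2 ⟨y, hxy, f, hA f, hf⟩
  have h4 := Finset.card_le_card h2
  rw [← Dg_VA]
  unfold IsoAux.Dg
  have h5 : ∀ x ∈ VA src dst A, 3 ≤ ∑ y ∈ VA src dst A, ia src dst A x y := by
    intro x hx
    rw [sum_VA]
    refine three_VA h3 hx fun hm => ?_
    obtain ⟨-, f, hf, -⟩ := mem_mid.1 hm
    exact hf (hA f)
  have h6 := Finset.sum_le_sum h5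
  rw [Finset.sum_const, smul_eq_mul] at h6
  omega

/-- graphs of branchwidth at most nineteen -/
theorem flow_bd {src dst : E → V} (h : HasBD 19 src dst) (hb : Br src dst ∅ ∅) :
    FlowOn src dst ∅ ∅ := by
  by_contra hn
  obtain ⟨s, d, ⟨t, ht, hA⟩, hM⟩ := crit V E (HasBD 19) (mcBD 19) src dst h hb hn
  obtain ⟨-, hT⟩ := gi_all V E s d hM
  have hG := girth_all V E s d hM
  refine hM.nf (flow_of_loops fun e => ?_)
  by_contra he
  have h1 := many hG hT ht he
  have h2 := descent hG hT t hA
  omega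

end Pool.Agent.H90.BW
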