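import Mathlib
import Pool.Graph.R_seed8.R15.TW18
import Pool.Graph.R_seed8.Y335.FL.Main
import Pool.Agent.H90.BW.Ex3

/-! # Nowhere-zero 5-flows in graphs of treewidth at most nineteen

The elimination argument is that of the library module R15/TW18, with larger numbers. -/

set_option autoImplicit false
set_option linter.unusedSectionVars false

namespace Pool.Agent.H90.BW.T19

open Finset Pool.Agent.TH676.Z Pool.Agent.Y335.FL

/-- sets of 31 to 57 vertices of degree at least three have at least 21 outer neighbours -/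
theorem iso21 (V : Type) [Fintype V] [DecidableEq V] (G : SimpleGraph V)
    [DecidableRel G.Adj] (hg : Girth G.Adj 12) (U : Finset V) (hU : ∀ v ∈ U, 3 ≤ G.degree v)
    (h31 : 31 ≤ U.card) (h57 : U.card ≤ 57) :
    21 ≤ (univ.filter (fun v => v ∉ U ∧ ∃ x ∈ U, G.Adj x v)).card :=
  Pool.Agent.R15.TW18.isoGen 20 V G hg U hU (by omega) (fun V' _ _ G' _ h1 h2 h3 h4 h5 =>
    ex20b G' h1 h2 (by omega) (by omega) (by omega))

/-- sets of 28 to 31 vertices of degree at least three have at least 20 outer neighbours -/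
theorem iso20 (V : Type) [Fintype V] [DecidableEq V] (G : SimpleGraph V)
    [DecidableRel G.Adj] (hg : Girth G.Adj 12) (U : Finset V) (hU : ∀ v ∈ U, 3 ≤ G.degree v)
    (h28 : 28 ≤ U.card) (h31 : U.card ≤ 31) :
    20 ≤ (univ.filter (fun v => v ∉ U ∧ ∃ x ∈ U, G.Adj x v)).card :=
  Pool.Agent.R15.TW18.isoGen 19 V G hg U hU (by omega) (fun V' _ _ G' _ h1 h2 h3 h4 h5 =>
    ex19b G' h1 h2 (by omega) (by omega) (by omega))

namespace Tw

section

variable {V : Type} [Fintype V] [DecidableEq V]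

open Pool.Agent.Y335.FL.Tw (Gr)

/-- the invariant -/
def Iv (Ad : V → V → Prop) (In : Finset V → Prop) (U : Finset V) : Prop :=
  ∀ x, x ∉ U → (∃ y, Ad x y) →
    ∃ P, x ∈ P ∧ Pc Ad In U P ∧ P.card ≤ 27 ∧ ∀ z ∈ P, ∃ y, Ad z y

open Classical in
/-- the isoperimetric inequality for the relation -/
theorem isoA {Ad : V → V → Prop} (hs : ∀ a b, Ad a b → Ad b a)
    (hi : ∀ a, ¬ Ad a a) (hg : Girth Ad 12) (h3 : Three Ad) {Q W : Finset V}
    (hQ : ∀ z ∈ Q, ∃ y, Ad z y) (hW : W.card ≤ 19)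
    (hout : ∀ x ∈ Q, ∀ v, Ad x v → v ∉ Q → v ∈ W) (h1 : 28 ≤ Q.card) (h2 : Q.card ≤ 31) :
    False := by
  have h4 := iso20 V (Gr Ad hs hi) hg Q (by
    intro v hv
    obtain ⟨y, hy⟩ := hQ v hv
    obtain ⟨a, b, c, ha, hb, hc, hab, hac, hbc⟩ := h3 v y hy
    rw [← SimpleGraph.card_neighborFinset_eq_degree]
    have hsub : ({a, b, c} : Finset V) ⊆ (Gr Ad hs hi).neighborFinset v := by
      intro w hw
      rw [SimpleGraph.mem_neighborFinset]
      simp only [mem_insert, mem_singleton] at hw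
      rcases hw with rfl | rfl | rfl
      · exact ha
      · exact hb
      · exact hc
    have h5 := card_le_card hsub
    rwa [card_eq_three.2 ⟨a, b, c, hab, hac, hbc, rfl⟩] at h5) h1 h2
  have h5 : (univ.filter (fun v => v ∉ Q ∧ ∃ x ∈ Q, (Gr Ad hs hi).Adj x v)) ⊆ W := by
    intro v hv
    rw [mem_filter] at hv
    obtain ⟨-, hvQ, x, hx, hxv⟩ := hv
    exact hout x hx v hxv hvQ
  have h6 := card_le_card h5
  omega


open Classical in
/-- the isoperimetric inequality for the relation -/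
theorem isoB {Ad : V → V → Prop} (hs : ∀ a b, Ad a b → Ad b a)
    (hi : ∀ a, ¬ Ad a a) (hg : Girth Ad 12) (h3 : Three Ad) {Q W : Finset V}
    (hQ : ∀ z ∈ Q, ∃ y, Ad z y) (hW : W.card ≤ 20)
    (hout : ∀ x ∈ Q, ∀ v, Ad x v → v ∉ Q → v ∈ W) (h1 : 31 ≤ Q.card) (h2 : Q.card ≤ 57) :
    False := by
  have h4 := iso21 V (Gr Ad hs hi) hg Q (by
    intro v hv
    obtain ⟨y, hy⟩ := hQ v hv
    obtain ⟨a, b, c, ha, hb, hc, hab, hac, hbc⟩ := h3 v y hy
    rw [← SimpleGraph.card_neighborFinset_eq_degree]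
    have hsub : ({a, b, c} : Finset V) ⊆ (Gr Ad hs hi).neighborFinset v := by
      intro w hw
      rw [SimpleGraph.mem_neighborFinset]
      simp only [mem_insert, mem_singleton] at hw
      rcases hw with rfl | rfl | rfl
      · exact ha
      · exact hb
      · exact hc
    have h5 := card_le_card hsub
    rwa [card_eq_three.2 ⟨a, b, c, hab, hac, hbc, rfl⟩] at h5) h1 h2
  have h5 : (univ.filter (fun v => v ∉ Q ∧ ∃ x ∈ Q, (Gr Ad hs hi).Adj x v)) ⊆ W := by
    intro v hv
    rw [mem_filter] at hv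
    obtain ⟨-, hvQ, x, hx, hxv⟩ := hv
    exact hout x hx v hxv hvQ
  have h6 := card_le_card h5
  omega


/-- the elimination step -/
theorem step {Ad : V → V → Prop} {In : Finset V → Prop}
    (hs : ∀ a b, Ad a b → Ad b a)
    (hi : ∀ a, ¬ Ad a a) (hg : Girth Ad 12) (h3 : Three Ad) (hB : Bags Ad 20 In)
    {U W : Finset V} {r : V} (hW : In W) (hrW : r ∈ W)
    (hel : ∀ Z, In Z → Z ⊆ U → r ∈ Z → Z ⊆ W) (hrU : r ∈ U) (hrn : ∃ y, Ad r y)
    (hI : Iv Ad In U) : Iv Ad In (U.erase r) := by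
  classical
  have hW18 : W.card ≤ 20 := hB.card W hW
  -- the pieces next to `r`
  obtain ⟨F, hF⟩ : ∃ F : Finset (Finset V), F = univ.filter (fun P => Pc Ad In U P ∧
    P.card ≤ 27 ∧ (∀ z ∈ P, ∃ y, Ad z y) ∧ ∃ y ∈ P, Ad r y) := ⟨_, rfl⟩
  have hFm : ∀ P, P ∈ F ↔ Pc Ad In U P ∧ P.card ≤ 27 ∧ (∀ z ∈ P, ∃ y, Ad z y) ∧
      ∃ y ∈ P, Ad r y := by
    intro P
    rw [hF, mem_filter]
    simp
  have honb : ∀ P ∈ F, ∀ x ∈ P, ∀ v, Ad x v → v ∈ U → v ∈ W := by
    intro P hP x hx v hxv hvU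
    obtain ⟨h1, -, -, y, hy, hry⟩ := (hFm P).1 hP
    have h2 := hel (onb Ad U P) h1.inn (by
      intro z hz
      unfold onb at hz
      rw [mem_filter] at hz
      exact hz.2.1) (by
      unfold onb
      rw [mem_filter]
      exact ⟨mem_univ _, hrU, y, hy, hs _ _ hry⟩)
    apply h2
    unfold onb
    rw [mem_filter]
    exact ⟨mem_univ _, hvU, x, hx, hxv⟩
  -- unions of pieces are small
  have hsmall : ∀ S : Finset (Finset V), S ⊆ F → (S.biUnion id).card ≤ 30 := by
    intro S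
    induction S using Finset.induction_on with
    | empty => intro _; simp
    | insert P S hPS ih =>
      intro hsub
      have hP : P ∈ F := hsub (mem_insert_self _ _)
      have h1 := ih ((subset_insert _ _).trans hsub)
      have h2 : ((insert P S).biUnion id).card ≤ 57 := by
        rw [biUnion_insert]
        have := card_union_le (id P) (S.biUnion id)
        have h4 := ((hFm P).1 hP).2.1
        simp only [id] at this ⊢
        omega
      by_contra hcon
      push Not at hcon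
      refine isoB hs hi hg h3 (Q := (insert P S).biUnion id) (W := W) ?_ hW18 ?_ (by omega) h2
      · intro z hz
        rw [mem_biUnion] at hz
        obtain ⟨P', hP', hz⟩ := hz
        exact ((hFm P').1 (hsub hP')).2.2.1 z hz
      · intro x hx v hxv hv
        rw [mem_biUnion] at hx
        obtain ⟨P', hP', hx⟩ := hx
        have hP'F := hsub hP'
        rcases ((hFm P').1 hP'F).1.cl x hx v hxv with h4 | h4
        · exact absurd (mem_biUnion.2 ⟨P', hP', h4⟩) hv
        · exact honb P' hP'F x hx v hxv h4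
  obtain ⟨Q, hQ⟩ : ∃ Q : Finset V, Q = F.biUnion id := ⟨_, rfl⟩
  have hQc : Q.card ≤ 30 := by rw [hQ]; exact hsmall F (Subset.refl _)
  have hQm : ∀ x, x ∈ Q ↔ ∃ P ∈ F, x ∈ P := by
    intro x
    rw [hQ, mem_biUnion]
    simp
  -- neighbours of `insert r Q`
  have hcl : ∀ x ∈ insert r Q, ∀ v, Ad x v → v ∈ insert r Q ∨ (v ∈ U.erase r ∧ v ∈ W) := by
    intro x hx v hxv
    by_cases hvr : v = r
    · left
      rw [hvr]
      exact mem_insert_self _ _
    rw [mem_insert] at hx
    rcases hx with rfl | hx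
    · by_cases hvU : v ∈ U
      · right
        refine ⟨mem_erase.2 ⟨hvr, hvU⟩, ?_⟩
        have h1 := hel {x, v} (hB.edge _ _ hxv) (by
          intro z hz
          rw [mem_insert, mem_singleton] at hz
          rcases hz with rfl | rfl
          · exact hrU
          · exact hvU) (by simp)
        exact h1 (by simp)
      · left
        obtain ⟨P, hvP, hP1, hP2, hP3⟩ := hI v hvU ⟨x, hs _ _ hxv⟩
        exact mem_insert_of_mem ((hQm v).2 ⟨P, (hFm P).2 ⟨hP1, hP2, hP3, v, hvP, hxv⟩, hvP⟩)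
    · obtain ⟨P, hP, hxP⟩ := (hQm x).1 hx
      rcases ((hFm P).1 hP).1.cl x hxP v hxv with h4 | h4
      · left
        exact mem_insert_of_mem ((hQm v).2 ⟨P, hP, h4⟩)
      · right
        exact ⟨mem_erase.2 ⟨hvr, h4⟩, honb P hP x hxP v hxv h4⟩
  have hnb : ∀ z ∈ insert r Q, ∃ y, Ad z y := by
    intro z hz
    rw [mem_insert] at hz
    rcases hz with rfl | hz
    · exact hrn
    · obtain ⟨P, hP, hzP⟩ := (hQm z).1 hz
      exact ((hFm P).1 hP).2.2.1 z hzP
  have hcard : (insert r Q).card ≤ 27 := by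
    by_contra hcon
    push Not at hcon
    have h1 := card_insert_le r Q
    refine isoA hs hi hg h3 (Q := insert r Q) (W := W.erase r) hnb
      (by rw [card_erase_of_mem hrW]; omega) ?_ (by omega) (by omega)
    intro x hx v hxv hv
    rcases hcl x hx v hxv with h4 | h4
    · exact absurd h4 hv
    · exact mem_erase.2 ⟨(mem_erase.1 h4.1).1, h4.2⟩
  have hPc : Pc Ad In (U.erase r) (insert r Q) := by
    refine ⟨?_, ?_, ?_⟩
    · intro x hx
      rw [mem_insert] at hx
      rcases hx with rfl | hx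
      · simp
      · obtain ⟨P, hP, hxP⟩ := (hQm x).1 hx
        intro h4
        exact ((hFm P).1 hP).1.out x hxP (mem_of_mem_erase h4)
    · intro x hx y hxy
      rcases hcl x hx y hxy with h4 | h4
      · exact Or.inl h4
      · exact Or.inr h4.1
    · refine hB.mono _ W ?_ hW
      intro v hv
      unfold onb at hv
      rw [mem_filter] at hv
      obtain ⟨-, hvU, x, hx, hxv⟩ := hv
      rcases hcl x hx v hxv with h4 | h4
      · exfalso
        rw [mem_insert] at h4
        rcases h4 with rfl | h4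
        · simp at hvU
        · obtain ⟨P, hP, hxP⟩ := (hQm v).1 h4
          exact ((hFm P).1 hP).1.out v hxP (mem_of_mem_erase hvU)
      · exact h4.2
  intro x hx hxn
  by_cases hxr : x = r
  · exact ⟨insert r Q, by rw [hxr]; exact mem_insert_self _ _, hPc, hcard, hnb⟩
  · have hxU : x ∉ U := fun h4 => hx (mem_erase.2 ⟨hxr, h4⟩)
    obtain ⟨P, hxP, hP1, hP2, hP3⟩ := hI x hxU hxn
    by_cases ha : ∃ y ∈ P, Ad r y
    · exact ⟨insert r Q, mem_insert_of_mem ((hQm x).2 ⟨P, (hFm P).2 ⟨hP1, hP2, hP3, ha⟩, hxP⟩),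
        hPc, hcard, hnb⟩
    · push Not at ha
      refine ⟨P, hxP, ⟨fun z hz h4 => hP1.out z hz (mem_of_mem_erase h4), ?_, ?_⟩, hP2, hP3⟩
      · intro z hz y hzy
        rcases hP1.cl z hz y hzy with h4 | h4
        · exact Or.inl h4
        · refine Or.inr (mem_erase.2 ⟨?_, h4⟩)
          rintro rfl
          exact ha z hz (hs _ _ hzy)
      · refine hB.mono _ _ ?_ hP1.inn
        intro v hv
        unfold onb at hv ⊢
        rw [mem_filter] at hv ⊢
        exact ⟨hv.1, mem_of_mem_erase hv.2.1, hv.2.2⟩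


end

end Tw


theorem final {V : Type} [Fintype V] [DecidableEq V] {Ad : V → V → Prop} {In : Finset V → Prop}
    (hs : ∀ a b, Ad a b → Ad b a) (hi : ∀ a, ¬ Ad a a) (hg : Girth Ad 12) (h3 : Three Ad)
    (hI : Tw.Iv Ad In ∅) : ∀ x y, ¬ Ad x y := by
  classical
  intro x y hxy
  obtain ⟨P, hxP, hP, hc, -⟩ := hI x (by simp) ⟨y, hxy⟩
  have hcl : ∀ p ∈ P, ∀ q, Ad p q → q ∈ P := by
    intro p hp q hq
    rcases hP.cl p hp q hq with h | h
    · exact h
    · simp at h
  have h1 := moore V (fun a b => Ad a b ∧ a ∈ P)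
    (fun a b hab => ⟨hs _ _ hab.1, hcl a hab.2 b hab.1⟩)
    (fun a ha => hi a ha.1) (fun k hk v hv hall => hg k hk v hv (fun i => (hall i).1))
    (fun a b hab => by
      obtain ⟨a1, a2, a3, e1, e2, e3, e4, e5, e6⟩ := h3 a b hab.1
      exact ⟨a1, a2, a3, ⟨e1, hab.2⟩, ⟨e2, hab.2⟩, ⟨e3, hab.2⟩, e4, e5, e6⟩)
    ⟨x, y, hxy, hxP⟩
  have h2 : (univ.filter (fun v => ∃ y, Ad v y ∧ v ∈ P)) ⊆ P := by
    intro v hv
    rw [mem_filter] at hv
    obtain ⟨-, y, -, hvP⟩ := hv
    exact hvP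
  have h4 := card_le_card h2
  omega

theorem tw19 (V : Type) [Fintype V] [DecidableEq V] (Ad : V → V → Prop)
    (In : Finset V → Prop) (hs : ∀ a b, Ad a b → Ad b a) (hi : ∀ a, ¬ Ad a a) (hg : Girth Ad 12)
    (h3 : Three Ad) (hB : Bags Ad 20 In) : ∀ x y, ¬ Ad x y := by
  have main : ∀ n : ℕ, ∀ U : Finset V, U.card = n → (∀ x ∈ U, ∃ y, Ad x y) → Tw.Iv Ad In U →
      Tw.Iv Ad In ∅ := by
    intro n
    induction n with
    | zero =>
      intro U hU _ hinv
      rw [Finset.card_eq_zero] at hU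
      rw [← hU]
      exact hinv
    | succ n ih =>
      intro U hU hin hinv
      have hne : U.Nonempty := Finset.card_pos.1 (by omega)
      obtain ⟨r, hr, W, hW, hrW, hZ⟩ := hB.elim U hne (fun x hx => by
        obtain ⟨y, hy⟩ := hin x hx
        exact hB.mono {x} {x, y} (by simp) (hB.edge x y hy))
      refine ih (U.erase r) ?_ ?_ ?_
      · rw [Finset.card_erase_of_mem hr]
        omega
      · intro x hx
        exact hin x (Finset.mem_of_mem_erase hx)
      · exact Tw.step hs hi hg h3 hB hW hrW hZ hr (hin r hr) hinv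
  classical
  refine final hs hi hg h3 (main _ (univ.filter (fun x => ∃ y, Ad x y)) rfl ?_ ?_)
  · intro x hx
    rw [Finset.mem_filter] at hx
    exact hx.2
  · intro x hx hy
    exact absurd (Finset.mem_filter.2 ⟨Finset.mem_univ x, hy⟩) hx

variable {V E : Type} [Fintype V] [DecidableEq V] [Fintype E] [DecidableEq E]

open Pool.Agent.TH497.TW in
theorem flow_tw {src dst : E → V} (h : HasTD 20 src dst)
    (hb : Br src dst ∅ ∅) : FlowOn src dst ∅ ∅ := by
  by_contra hn
  obtain ⟨s, d, hs, hM⟩ := crit V E (HasTD 20) (Pool.Agent.TH676.Z.mc 20) src dst h hb hn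
  obtain ⟨-, hT⟩ := gi_all V E s d hM
  have hG := girth_all V E s d hM
  obtain ⟨In, hB⟩ := bags hs
  have hno := tw19 V (Adj s d) In
    (fun a b h => ⟨h.1.symm, h.2.imp fun e he => he.symm⟩) (fun a h => h.1 rfl) hG hT hB
  refine hM.nf (flow_of_loops fun e => ?_)
  by_contra he
  exact hno (s e) (d e) ⟨he, e, Or.inl ⟨rfl, rfl⟩⟩

end Pool.Agent.H90.BW.T19
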