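import Pool.Graph.R_seed8.R129.Tia.Wid
import Pool.Agent.H90.BW.Tw19
import Pool.Agent.H90.BW.Path
import Pool.Agent.H90.BW.Tree

/-! # Decompositions whose bags or middle sets are not sparse

As in the library module R129/Tia/Wid: a set satisfies `Spw w` if any `w + 1` of its vertices
include all vertices of a circuit with at most eleven edges. -/

set_option autoImplicit false
set_option linter.unusedSectionVars false

namespace Pool.Agent.H90.BW.Sp

open Finset Pool.Agent.TH676.Z Pool.Agent.Y335.FL Pool.Agent.Y358.IN Pool.Agent.TH497.TW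
open Pool.Agent.R129.Tia

variable {V E : Type} [Fintype V] [DecidableEq V] [Fintype E] [DecidableEq E]

/-- any `n` vertices in `B` include all vertices of a circuit with `2, ..., 11` edges -/
def NotSparse (src dst : E → V) (n : ℕ) (B : Finset V) : Prop :=
  ∀ S ⊆ B, S.card = n → ∃ k, k ≤ 9 ∧ ∃ (v : Fin (k + 2) → V) (e : Fin (k + 2) → E),
    Function.Injective v ∧ Function.Injective e ∧
      ∀ i, v i ∈ S ∧ ((src (e i) = v i ∧ dst (e i) = v (i + 1)) ∨
        (src (e i) = v (i + 1) ∧ dst (e i) = v i))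

theorem spw {src dst : E → V} {w : ℕ} {B : Finset V} (h : NotSparse src dst (w + 1) B) :
    Spw w src dst B := by
  intro S hSB hno
  by_contra hcon
  push Not at hcon
  obtain ⟨S', hS', hcard⟩ := Finset.exists_subset_card_eq (show w + 1 ≤ S.card by omega)
  obtain ⟨k, hk, v, e, hv, he, hA⟩ := h S' (hS'.trans hSB) hcard
  exact hno ⟨k, hk, v, e, hv, he, fun i => ⟨hS' (hA i).1, (hA i).2⟩⟩

/-! ## Tree decompositions -/

theorem flow_tree {src dst : E → V} (hcl : HasTw 20 src dst) (hbr : Br src dst ∅ ∅) :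
    FlowOn src dst ∅ ∅ := by
  by_contra hn
  obtain ⟨s, d, hs, hM⟩ := exists_minC (ccTw 20) src dst hcl hbr hn
  have hTD : HasTD 20 s d := by
    obtain ⟨n, par, B, h0, h1, h2, h4⟩ := hs
    exact ⟨n, par, B, h0, h1, h2, fun i hi => (h4 i hi).card contract_all hM⟩
  exact hM.nf (Pool.Agent.H90.BW.T19.flow_tw hTD hM.br)

/-! ## Branch decompositions -/

/-- a branch decomposition whose middle sets satisfy `Spw` -/
def HasBS (w : ℕ) (src dst : E → V) : Prop :=
  ∃ t : BTree E, (∀ e, e ∈ t.labels) ∧ t.All (fun A => Spw w src dst (mid src dst A))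

theorem ccBS (w : ℕ) : CC (V := V) (E := E) (HasBS w) := by
  rintro src dst e ⟨t, ht, hA⟩ hne
  exact ⟨t, ht, BTree.All.mono (fun A h => (Spw.ctr h _ _).subset (mid_ctr src dst e hne A)) t hA⟩

theorem flow_branch {src dst : E → V} (hcl : HasBS 19 src dst) (hbr : Br src dst ∅ ∅) :
    FlowOn src dst ∅ ∅ := by
  by_contra hn
  obtain ⟨s, d, ⟨t, ht, hA⟩, hM⟩ := exists_minC (ccBS 19) src dst hcl hbr hn
  exact hM.nf (flow_bd ⟨t, ht, BTree.All.mono (fun A h => Spw.card contract_all hM h) t hA⟩ hM.br)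

/-! ## Path decompositions -/

/-- a path decomposition whose bags satisfy `Spw` -/
def HasPS (w : ℕ) (src dst : E → V) : Prop :=
  ∃ X : ℕ → Finset V, (∀ e, src e ≠ dst e → ∃ i, src e ∈ X i ∧ dst e ∈ X i) ∧
    (∀ i j k v, i ≤ j → j ≤ k → v ∈ X i → v ∈ X k → v ∈ X j) ∧ ∀ i, Spw w src dst (X i)

theorem ccPS (w : ℕ) : CC (V := V) (E := E) (HasPS w) := by
  rintro src dst e ⟨X, hX1, hX2, hX3⟩ he
  refine ⟨fun i => (X i).image (ctr (src e) (dst e)), fun f hf => ?_, ?_, fun i =>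
    (hX3 i).ctr _ _⟩
  · have h1 : src f ≠ dst f := fun h => hf (congrArg (ctr (src e) (dst e)) h)
    obtain ⟨i, h2, h3⟩ := hX1 f h1
    exact ⟨i, Finset.mem_image_of_mem _ h2, Finset.mem_image_of_mem _ h3⟩
  · intro i j k v hij hjk hi hk
    obtain ⟨p, hp, hpv⟩ := Finset.mem_image.1 hi
    obtain ⟨q, hq, hqv⟩ := Finset.mem_image.1 hk
    by_cases hpq : p = q
    · subst hpq
      exact Finset.mem_image.2 ⟨p, hX2 i j k p hij hjk hp hq, hpv⟩
    · obtain ⟨b, hb1, hb2⟩ := hX1 e he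
      have hb : p ∈ X b ∧ q ∈ X b := by
        rcases ctr_eq' hpq (hpv.trans hqv.symm) with ⟨rfl, rfl⟩ | ⟨rfl, rfl⟩
        · exact ⟨hb1, hb2⟩
        · exact ⟨hb2, hb1⟩
      rcases le_total b j with h | h
      · exact Finset.mem_image.2 ⟨q, hX2 b j k q h hjk hb.2 hq, hqv⟩
      · exact Finset.mem_image.2 ⟨p, hX2 i j b p hij h hp hb.1, hpv⟩

theorem flow_path {src dst : E → V} (hcl : HasPS 23 src dst) (hbr : Br src dst ∅ ∅) :
    FlowOn src dst ∅ ∅ := by
  by_contra hn
  obtain ⟨s, d, ⟨X, h1, h2, h3⟩, hM⟩ := exists_minC (ccPS 23) src dst hcl hbr hn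
  exact hM.nf (flow_pd ⟨X, h1, h2, fun i => (h3 i).card contract_all hM⟩ hM.br)

end Pool.Agent.H90.BW.Sp
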